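import Pool.Graph.R_pool_sql_team_seeded_63374d34.N254.SQ.Smooth

/-!
The singular locus of the general hypersurface through a base locus, with a pointwise hypothesis on
the base locus: if the dimension of each point is smaller than the rank of the Jacobian matrix plus
`k`, then the singular locus does not meet a general linear subspace of codimension `k`. (Adapted from
the module `N254.SQ.Smooth` of the library, which is the case `k = 0`.)
-/

set_option autoImplicit false

namespace Pool.Agent.H911.KD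

open MvPolynomial
open Pool.Agent.N254.SQ

section smooth

/-- the rank of a block matrix -/
theorem rank_blocks {Ω : Type} [Field Ω] {κ κ' σ σ' : Type} [Fintype κ] [Fintype κ'] [Fintype σ]
    [Fintype σ'] (M : Matrix κ σ Ω) (M' : Matrix κ' σ' Ω) :
    M.rank + M'.rank ≤ (Matrix.fromBlocks M 0 0 M').rank := by
  classical
  have hmem : ∀ a ∈ LinearMap.range M.mulVecLin, ∀ b ∈ LinearMap.range M'.mulVecLin,
      Sum.elim a b ∈ LinearMap.range (Matrix.fromBlocks M 0 0 M').mulVecLin := by
    rintro _ ⟨u, rfl⟩ _ ⟨v, rfl⟩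
    refine ⟨Sum.elim u v, ?_⟩
    rw [Matrix.mulVecLin_apply, Matrix.fromBlocks_mulVec]
    simp only [Sum.elim_comp_inl, Sum.elim_comp_inr, Matrix.zero_mulVec, add_zero, zero_add,
      Matrix.mulVecLin_apply]
  let φ : (LinearMap.range M.mulVecLin × LinearMap.range M'.mulVecLin) →ₗ[Ω]
      LinearMap.range (Matrix.fromBlocks M 0 0 M').mulVecLin :=
    { toFun := fun p => ⟨Sum.elim p.1.1 p.2.1, hmem _ p.1.2 _ p.2.2⟩
      map_add' := by
        rintro ⟨a, b⟩ ⟨a', b'⟩
        apply Subtype.ext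
        funext i
        rcases i with i | i <;> rfl
      map_smul' := by
        rintro c ⟨a, b⟩
        apply Subtype.ext
        funext i
        rcases i with i | i <;> rfl }
  have hφ : Function.Injective φ := by
    rintro ⟨a, b⟩ ⟨a', b'⟩ h
    have h1 : Sum.elim a.1 b.1 = Sum.elim a'.1 b'.1 := congrArg Subtype.val h
    have h2 : a = a' := Subtype.ext (funext fun i => congrFun h1 (Sum.inl i))
    have h3 : b = b' := Subtype.ext (funext fun i => congrFun h1 (Sum.inr i))
    rw [h2, h3]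
  have h := LinearMap.finrank_le_finrank_of_injective hφ
  rw [Module.finrank_prod] at h
  exact h

/-- the matrix of the linear equations -/
theorem rank_lins {Ω : Type} [Field Ω] {n k : ℕ} (x : Fin (n + 1) → Ω) (a : Fin (n + 1))
    (ha : x a = 1) :
    k ≤ (Matrix.of fun (l : Fin k) (p : Fin k × Fin (n + 1)) =>
      if l = p.1 then x p.2 else 0 : Matrix (Fin k) (Fin k × Fin (n + 1)) Ω).rank := by
  classical
  have h1 : ((Matrix.of fun (l : Fin k) (p : Fin k × Fin (n + 1)) =>
      if l = p.1 then x p.2 else 0 : Matrix (Fin k) (Fin k × Fin (n + 1)) Ω).submatrix id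
        fun l => (l, a)) = 1 := by
    ext i j
    rw [Matrix.submatrix_apply, Matrix.of_apply, Matrix.one_apply, id, ha]
  have h2 := Matrix.rank_submatrix_le (Matrix.of fun (l : Fin k) (p : Fin k × Fin (n + 1)) =>
      if l = p.1 then x p.2 else 0 : Matrix (Fin k) (Fin k × Fin (n + 1)) Ω) id fun l => (l, a)
  rw [h1, Matrix.rank_one, Fintype.card_fin] at h2
  exact h2

/-- the generic case -/
theorem sing_core (hcount : Count_stm) (htd : Td_stm)
    {K : Type} [Field K] [CharZero K] {n L D e k : ℕ} {ι : Type} [Fintype ι]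
    {q : ι → MvPolynomial (Fin (n + 1)) K} (hq : ∀ i, (q i).IsHomogeneous e) (hD : 1 ≤ D)
    (hL : 2 * n + 1 ≤ L)
    (hpt : ∀ (Ω : Type) [Field Ω] [Algebra K Ω] (x : Fin (n + 1) → Ω) (a : Fin (n + 1)), x a = 1 →
      (∀ i, aeval x (q i) = 0) → Algebra.trdeg K (Algebra.adjoin K (Set.range x)) <
      (((Matrix.of fun (i : ι) (j : Fin (n + 1)) =>
        (aeval x (pderiv j (q i)) : Ω)).rank + k : ℕ) : Cardinal))
    (Ω : Type) [Field Ω] [Algebra K Ω] (y : (Fin L × ι) ⊕ (Fin k × Fin (n + 1)) → Ω)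
    (x : Fin (n + 1) → Ω) (hy : AlgebraicIndependent K y) (a : Fin (n + 1)) (ha : x a = 1)
    (hz : ∀ j, ∑ s : Fin L × ι, aeval x (pderiv j (q s.2 * lin K n (s.1 : ℕ) ^ D)) *
      y (Sum.inl s) = 0)
    (hl : ∀ l, ∑ j, x j * y (Sum.inr (l, j)) = 0) :
    False := by
  classical
  have hch : CharZero Ω := charZero_of_injective_algebraMap (FaithfulSMul.algebraMap_injective K Ω)
  have hx0 : x ≠ 0 := by
    intro h
    rw [h] at ha
    exact zero_ne_one ha
  obtain ⟨P, hP⟩ : ∃ P : Matrix (Fin (n + 1)) (Fin L × ι) (MvPolynomial (Fin (n + 1)) K),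
    P = Matrix.of fun j s => pderiv j (q s.2 * lin K n (s.1 : ℕ) ^ D) := ⟨_, rfl⟩
  obtain ⟨P', hP'⟩ : ∃ P' : Matrix (Fin k) (Fin k × Fin (n + 1)) (MvPolynomial (Fin (n + 1)) K),
    P' = Matrix.of fun l p => if l = p.1 then X p.2 else 0 := ⟨_, rfl⟩
  have hcnt := hcount K Ω (Fin (n + 1) ⊕ Fin k) ((Fin L × ι) ⊕ (Fin k × Fin (n + 1)))
    (Fin (n + 1)) x y hy (Matrix.fromBlocks P 0 0 P') (by
      rintro (j | l)
      · rw [Fintype.sum_sum_type]
        simp only [Matrix.fromBlocks_apply₁₁, Matrix.fromBlocks_apply₁₂, Matrix.zero_apply,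
          map_zero, zero_mul, Finset.sum_const_zero, add_zero]
        rw [hP]
        exact hz j
      · rw [Fintype.sum_sum_type]
        simp only [Matrix.fromBlocks_apply₂₁, Matrix.fromBlocks_apply₂₂, Matrix.zero_apply,
          map_zero, zero_mul, Finset.sum_const_zero, zero_add]
        rw [hP', Fintype.sum_prod_type, Finset.sum_eq_single l]
        · simp only [Matrix.of_apply, if_pos, aeval_X]
          exact hl l
        · intro l' _ hl'
          refine Finset.sum_eq_zero fun j _ => ?_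
          simp only [Matrix.of_apply]
          rw [if_neg (fun h => hl' h.symm), map_zero, zero_mul]
        · intro h
          exact absurd (Finset.mem_univ l) h)
  obtain ⟨M, hM⟩ : ∃ M : Matrix (Fin (n + 1)) (Fin L × ι) Ω, M = P.map fun p => (aeval x p : Ω) :=
    ⟨_, rfl⟩
  have hmap : ((Matrix.fromBlocks P 0 0 P').map fun p => (aeval x p : Ω)) =
      Matrix.fromBlocks M 0 0 (Matrix.of fun (l : Fin k) (p : Fin k × Fin (n + 1)) =>
        if l = p.1 then x p.2 else 0) := by
    ext i j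
    rcases i with i | i <;> rcases j with j | j
    · rw [Matrix.map_apply, Matrix.fromBlocks_apply₁₁, Matrix.fromBlocks_apply₁₁, hM,
        Matrix.map_apply]
    · rw [Matrix.map_apply, Matrix.fromBlocks_apply₁₂, Matrix.fromBlocks_apply₁₂,
        Matrix.zero_apply, Matrix.zero_apply, map_zero]
    · rw [Matrix.map_apply, Matrix.fromBlocks_apply₂₁, Matrix.fromBlocks_apply₂₁,
        Matrix.zero_apply, Matrix.zero_apply, map_zero]
    · rw [Matrix.map_apply, Matrix.fromBlocks_apply₂₂, Matrix.fromBlocks_apply₂₂, hP',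
        Matrix.of_apply, Matrix.of_apply]
      split_ifs
      · rw [aeval_X]
      · rw [map_zero]
  rw [hmap] at hcnt
  have hrk : M.rank + k ≤ (Matrix.fromBlocks M 0 0 (Matrix.of fun (l : Fin k)
      (p : Fin k × Fin (n + 1)) => if l = p.1 then x p.2 else 0)).rank :=
    (Nat.add_le_add_left (rank_lins x a ha) _).trans (rank_blocks _ _)
  have hMe : ∀ j t i, M j (t, i) = aeval x (lin K n (t : ℕ)) ^ (D - 1) *
      (aeval x (pderiv j (q i)) * aeval x (lin K n (t : ℕ)) +
        D * aeval x (q i) * ((t : ℕ) : Ω) ^ (j : ℕ)) := by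
    intro j t i
    rw [hM, hP]
    exact smooth_entry D t hD (q i) j x
  -- the forms which do not vanish
  set T : Finset (Fin L) := Finset.univ.filter fun t : Fin L => aeval x (lin K n (t : ℕ)) ≠ (0 : Ω)
    with hT
  have hTc : n + 1 ≤ T.card := by
    by_contra hcon
    have h1 := Finset.card_filter_add_card_filter_not (s := (Finset.univ : Finset (Fin L)))
      (p := fun t : Fin L => aeval x (lin K n (t : ℕ)) ≠ (0 : Ω))
    rw [Finset.card_univ, Fintype.card_fin] at h1
    apply hx0
    apply smooth_vand x (Finset.univ.filter fun t : Fin L => ¬ aeval x (lin K n (t : ℕ)) ≠ (0 : Ω))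
    · rw [← hT] at h1
      omega
    · intro t ht
      have h2 := (Finset.mem_filter.1 ht).2
      rw [not_not, smooth_lin_eval] at h2
      exact h2
  by_cases hall : ∀ i, aeval x (q i) = (0 : Ω)
  · -- case 2
    obtain ⟨t₀, ht₀⟩ : T.Nonempty := Finset.card_pos.1 (by omega)
    have hl0 := (Finset.mem_filter.1 ht₀).2
    set l : Ω := aeval x (lin K n (t₀ : ℕ)) with hl
    have hJ : (Matrix.of fun (i : ι) (j : Fin (n + 1)) => (aeval x (pderiv j (q i)) : Ω)).rank ≤
        M.rank := by
      have h1 : (Matrix.of fun (i : ι) (j : Fin (n + 1)) => (aeval x (pderiv j (q i)) : Ω)) =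
          ((M.submatrix id fun i : ι => (t₀, i)).transpose) *
            ((l ^ D)⁻¹ • (1 : Matrix (Fin (n + 1)) (Fin (n + 1)) Ω)) := by
        ext i j
        rw [Matrix.mul_smul, Matrix.mul_one, Matrix.smul_apply, Matrix.transpose_apply,
          Matrix.submatrix_apply, id, hMe, hall i, Matrix.of_apply, smul_eq_mul]
        have h2 : l ^ D = l ^ (D - 1) * l := by
          rw [← pow_succ]
          congr 1
          omega
        have h3 : l ^ (D - 1) ≠ 0 := pow_ne_zero _ hl0
        rw [h2]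
        field_simp
        ring
      rw [h1]
      refine (Matrix.rank_mul_le_left _ _).trans ?_
      rw [Matrix.rank_transpose]
      exact Matrix.rank_submatrix_le _ _ _
    have h1 := hpt Ω x a ha hall
    have h3 := hcnt.trans_lt h1
    rw [Nat.cast_lt] at h3
    omega
  · -- case 1
    push Not at hall
    obtain ⟨i₀, hi₀⟩ := hall
    have h2 := htd K Ω n n x a x ha (fun b => ⟨X b, (aeval_X _ _).symm⟩)
    have h3 := hcnt.trans h2
    rw [Nat.cast_le] at h3
    have hli : LinearIndependent Ω M.row := by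
      rw [Fintype.linearIndependent_iff]
      intro g hg
      have hg' : ∀ t i, ∑ j, g j * M j (t, i) = 0 := by
        intro t i
        have := congrFun hg (t, i)
        simpa [Finset.sum_apply, Matrix.row] using this
      set qv : Ω := aeval x (q i₀) with hqv
      set Dq : Ω := ∑ j, g j * aeval x (pderiv j (q i₀)) with hDq
      have hw : (fun j => Dq * x j + D * qv * g j) = 0 := by
        apply smooth_vand _ T hTc
        intro t ht
        have hl0 := (Finset.mem_filter.1 ht).2
        have h4 := hg' t i₀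
        have h5 : ∑ j, g j * M j (t, i₀) = aeval x (lin K n (t : ℕ)) ^ (D - 1) *
            ∑ j : Fin (n + 1), (Dq * x j + D * qv * g j) * ((t : ℕ) : Ω) ^ (j : ℕ) := by
          have h6 : ∑ j : Fin (n + 1), (Dq * x j + D * qv * g j) * ((t : ℕ) : Ω) ^ (j : ℕ) =
              Dq * aeval x (lin K n (t : ℕ)) + D * qv * ∑ j : Fin (n + 1), g j * ((t : ℕ) : Ω) ^ (j : ℕ) := by
            rw [smooth_lin_eval, Finset.mul_sum, Finset.mul_sum, ← Finset.sum_add_distrib]
            apply Finset.sum_congr rfl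
            intro j _
            ring
          rw [h6, hDq, Finset.sum_mul, Finset.mul_sum, ← Finset.sum_add_distrib, Finset.mul_sum]
          apply Finset.sum_congr rfl
          intro j _
          rw [hMe]
          ring
        rw [h5] at h4
        exact (mul_eq_zero.1 h4).resolve_left (pow_ne_zero _ hl0)
      have heuler : ∑ j, x j * aeval x (pderiv j (q i₀)) = e * qv := by
        have h4 := congrArg (aeval x) (hq i₀).sum_X_mul_pderiv
        rw [map_sum, map_nsmul, nsmul_eq_mul] at h4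
        rw [← h4]
        apply Finset.sum_congr rfl
        intro j _
        rw [map_mul, aeval_X]
      have hD0 : (D : Ω) ≠ 0 := Nat.cast_ne_zero.2 (by omega)
      have hDq0 : Dq = 0 := by
        have h4 : ∑ j, (Dq * x j + D * qv * g j) * aeval x (pderiv j (q i₀)) = 0 := by
          apply Finset.sum_eq_zero
          intro j _
          have := congrFun hw j
          simp only [Pi.zero_apply] at this
          rw [this, zero_mul]
        have h5 : ∑ j, (Dq * x j + D * qv * g j) * aeval x (pderiv j (q i₀)) =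
            Dq * (e * qv) + D * qv * Dq := by
          rw [← heuler]
          nth_rewrite 3 [hDq]
          rw [Finset.mul_sum, Finset.mul_sum, ← Finset.sum_add_distrib]
          apply Finset.sum_congr rfl
          intro j _
          ring
        rw [h5] at h4
        have h6 : Dq * qv * ((e + D : ℕ) : Ω) = 0 := by
          push_cast
          linear_combination h4
        have h7 : ((e + D : ℕ) : Ω) ≠ 0 := Nat.cast_ne_zero.2 (by omega)
        rcases mul_eq_zero.1 ((mul_eq_zero.1 h6).resolve_right h7) with h | h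
        · exact h
        · exact absurd h hi₀
      intro j
      have := congrFun hw j
      simp only [Pi.zero_apply, hDq0, zero_mul, zero_add] at this
      exact (mul_eq_zero.1 this).resolve_left (mul_ne_zero hD0 hi₀)
    rw [hli.rank_matrix, Fintype.card_fin] at hrk
    omega

/-- the singular locus of the general hypersurface -/
theorem t_sing (h1 : Spec_stm) (h2 : Count_stm) (h3 : Td_stm)
    (K : Type) [Field K] [CharZero K] (n L D e k : ℕ) (ι : Type) [Fintype ι]
    (q : ι → MvPolynomial (Fin (n + 1)) K) (hq : ∀ i, (q i).IsHomogeneous e) (hD : 1 ≤ D)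
    (hL : 2 * n + 1 ≤ L)
    (hpt : ∀ (Ω : Type) [Field Ω] [Algebra K Ω] (x : Fin (n + 1) → Ω) (a : Fin (n + 1)), x a = 1 →
      (∀ i, aeval x (q i) = 0) → Algebra.trdeg K (Algebra.adjoin K (Set.range x)) <
      (((Matrix.of fun (i : ι) (j : Fin (n + 1)) =>
        (aeval x (pderiv j (q i)) : Ω)).rank + k : ℕ) : Cardinal)) :
    ∃ Δ : MvPolynomial ((Fin L × ι) ⊕ (Fin k × Fin (n + 1))) K, Δ ≠ 0 ∧
      ∀ (Ω : Type) [Field Ω] [Algebra K Ω] (c : Fin L × ι → Ω) (l : Fin k × Fin (n + 1) → Ω),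
        aeval (Sum.elim c l) Δ ≠ 0 → ∀ x : Fin (n + 1) → Ω, x ≠ 0 →
        (∀ i, ∑ j, l (i, j) * x j = 0) → ∃ j, eval x (pderiv j (∑ t : Fin L,
          (∑ i, C (c (t, i)) * map (algebraMap K Ω) (q i)) * lin Ω n (t : ℕ) ^ D)) ≠ 0 := by
  classical
  obtain ⟨P, hP⟩ : ∃ P : Fin (n + 1) ⊕ Fin k →
      MvPolynomial (((Fin L × ι) ⊕ (Fin k × Fin (n + 1))) ⊕ Fin (n + 1)) K,
      P = Sum.elim (fun j => ∑ s : Fin L × ι, X (Sum.inl (Sum.inl s)) *
          rename Sum.inr (pderiv j (q s.2 * lin K n (s.1 : ℕ) ^ D)))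
        (fun l => ∑ j, X (Sum.inr j) * X (Sum.inl (Sum.inr (l, j)))) := ⟨_, rfl⟩
  have hPe : ∀ (Ω : Type) [Field Ω] [Algebra K Ω] (y : (Fin L × ι) ⊕ (Fin k × Fin (n + 1)) → Ω)
      (x : Fin (n + 1) → Ω) j, aeval (Sum.elim y x) (P (Sum.inl j)) =
        ∑ s : Fin L × ι, aeval x (pderiv j (q s.2 * lin K n (s.1 : ℕ) ^ D)) * y (Sum.inl s) := by
    intro Ω _ _ y x j
    rw [hP, Sum.elim_inl, map_sum]
    apply Finset.sum_congr rfl
    intro s _
    rw [map_mul, aeval_X, aeval_rename, Sum.elim_comp_inr, Sum.elim_inl, mul_comm]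
  have hPl : ∀ (Ω : Type) [Field Ω] [Algebra K Ω] (y : (Fin L × ι) ⊕ (Fin k × Fin (n + 1)) → Ω)
      (x : Fin (n + 1) → Ω) l, aeval (Sum.elim y x) (P (Sum.inr l)) =
        ∑ j, x j * y (Sum.inr (l, j)) := by
    intro Ω _ _ y x l
    rw [hP, Sum.elim_inr, map_sum]
    apply Finset.sum_congr rfl
    intro j _
    rw [map_mul, aeval_X, aeval_X, Sum.elim_inr, Sum.elim_inl]
  have hhom : ∀ j (s : Fin L × ι), (pderiv j (q s.2 * lin K n (s.1 : ℕ) ^ D)).IsHomogeneous (e + 1 * D - 1) :=
    fun j s => ((hq s.2).mul ((smooth_lin_hom K n s.1).pow D)).pderiv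
  have hgen : ∀ a : Fin (n + 1), ∃ Δ : MvPolynomial ((Fin L × ι) ⊕ (Fin k × Fin (n + 1))) K,
      Δ ≠ 0 ∧ ∀ (Ω : Type) [Field Ω] [Algebra K Ω] (c : (Fin L × ι) ⊕ (Fin k × Fin (n + 1)) → Ω)
        (x : Fin (n + 1) → Ω), aeval c Δ ≠ 0 →
        (∀ i, aeval (Sum.elim c x) (P i) = 0) → aeval (Sum.elim c x) (X (Sum.inr a) :
          MvPolynomial (((Fin L × ι) ⊕ (Fin k × Fin (n + 1))) ⊕ Fin (n + 1)) K) = 0 := by
    intro a
    apply h1
    intro Ω _ _ y x hy hz
    rw [aeval_X, Sum.elim_inr]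
    by_contra hxa
    have hz' : ∀ j, ∑ s : Fin L × ι, aeval x (pderiv j (q s.2 * lin K n (s.1 : ℕ) ^ D)) *
        y (Sum.inl s) = 0 := fun j => by rw [← hPe]; exact hz (Sum.inl j)
    have hl' : ∀ l, ∑ j, x j * y (Sum.inr (l, j)) = 0 :=
      fun l => by rw [← hPl]; exact hz (Sum.inr l)
    apply sing_core h2 h3 hq hD hL hpt Ω y (fun j => (x a)⁻¹ * x j) hy a
      (inv_mul_cancel₀ hxa)
    · intro j
      have h4 : ∀ s : Fin L × ι, aeval (fun j => (x a)⁻¹ * x j) (pderiv j (q s.2 *
          lin K n (s.1 : ℕ) ^ D)) * y (Sum.inl s) = (x a)⁻¹ ^ (e + 1 * D - 1) *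
            (aeval x (pderiv j (q s.2 * lin K n (s.1 : ℕ) ^ D)) * y (Sum.inl s)) := by
        intro s
        rw [smooth_scale (hhom j s)]
        ring
      rw [Finset.sum_congr rfl (fun s _ => h4 s), ← Finset.mul_sum, hz' j, mul_zero]
    · intro l
      have h4 : ∀ j, (x a)⁻¹ * x j * y (Sum.inr (l, j)) =
          (x a)⁻¹ * (x j * y (Sum.inr (l, j))) := fun j => mul_assoc _ _ _
      rw [Finset.sum_congr rfl (fun j _ => h4 j), ← Finset.mul_sum, hl' l, mul_zero]
  choose Δ hΔ0 hΔ using hgen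
  refine ⟨∏ a, Δ a, Finset.prod_ne_zero_iff.2 (fun a _ => hΔ0 a), ?_⟩
  intro Ω _ _ c l hc x hx hlx
  by_contra hcon
  push Not at hcon
  rw [map_prod, Finset.prod_ne_zero_iff] at hc
  apply hx
  funext a
  have h4 := hΔ a Ω (Sum.elim c l) x (hc a (Finset.mem_univ _)) (by
    rintro (j | i)
    · rw [hPe, ← hcon j]
      rw [map_sum, map_sum, Fintype.sum_prod_type]
      apply Finset.sum_congr rfl
      intro t _
      rw [Finset.sum_mul, map_sum, map_sum]
      apply Finset.sum_congr rfl
      intro i _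
      rw [smooth_lin_map K Ω, mul_assoc, ← map_pow, ← map_mul, pderiv_C_mul, pderiv_map,
        (eval x).map_mul, eval_C, eval_map, ← aeval_def, mul_comm, Sum.elim_inl]
    · rw [hPl, ← hlx i]
      apply Finset.sum_congr rfl
      intro j _
      rw [Sum.elim_inr, mul_comm])
  rw [aeval_X, Sum.elim_inr] at h4
  exact h4

/-- singular points outside of the base locus: the generic case -/
theorem out_core (hcount : Count_stm) (htd : Td_stm)
    {K : Type} [Field K] [CharZero K] {n L D e : ℕ} {ι : Type} [Fintype ι]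
    {q : ι → MvPolynomial (Fin (n + 1)) K} (hq : ∀ i, (q i).IsHomogeneous e) (hD : 1 ≤ D)
    (hL : 2 * n + 1 ≤ L)
    (Ω : Type) [Field Ω] [Algebra K Ω] (y : Fin L × ι → Ω) (x : Fin (n + 1) → Ω)
    (hy : AlgebraicIndependent K y) (a : Fin (n + 1)) (ha : x a = 1)
    (hz : ∀ j, ∑ s : Fin L × ι, aeval x (pderiv j (q s.2 * lin K n (s.1 : ℕ) ^ D)) * y s = 0)
    (i₀ : ι) : aeval x (q i₀) = (0 : Ω) := by
  classical
  by_contra hi₀
  have hch : CharZero Ω := charZero_of_injective_algebraMap (FaithfulSMul.algebraMap_injective K Ω)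
  have hx0 : x ≠ 0 := by
    intro h
    rw [h] at ha
    exact zero_ne_one ha
  obtain ⟨P, hP⟩ : ∃ P : Matrix (Fin (n + 1)) (Fin L × ι) (MvPolynomial (Fin (n + 1)) K),
    P = Matrix.of fun j s => pderiv j (q s.2 * lin K n (s.1 : ℕ) ^ D) := ⟨_, rfl⟩
  have hcnt := hcount K Ω (Fin (n + 1)) (Fin L × ι) (Fin (n + 1)) x y hy P
    (fun j => by rw [hP]; exact hz j)
  obtain ⟨M, hM⟩ : ∃ M : Matrix (Fin (n + 1)) (Fin L × ι) Ω, M = P.map fun p => (aeval x p : Ω) :=
    ⟨_, rfl⟩
  rw [← hM] at hcnt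
  have hMe : ∀ j t i, M j (t, i) = aeval x (lin K n (t : ℕ)) ^ (D - 1) *
      (aeval x (pderiv j (q i)) * aeval x (lin K n (t : ℕ)) +
        D * aeval x (q i) * ((t : ℕ) : Ω) ^ (j : ℕ)) := by
    intro j t i
    rw [hM, hP]
    exact smooth_entry D t hD (q i) j x
  -- the forms which do not vanish
  set T : Finset (Fin L) := Finset.univ.filter fun t : Fin L => aeval x (lin K n (t : ℕ)) ≠ (0 : Ω)
    with hT
  have hTc : n + 1 ≤ T.card := by
    by_contra hcon
    have h1 := Finset.card_filter_add_card_filter_not (s := (Finset.univ : Finset (Fin L)))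
      (p := fun t : Fin L => aeval x (lin K n (t : ℕ)) ≠ (0 : Ω))
    rw [Finset.card_univ, Fintype.card_fin] at h1
    apply hx0
    apply smooth_vand x (Finset.univ.filter fun t : Fin L => ¬ aeval x (lin K n (t : ℕ)) ≠ (0 : Ω))
    · rw [← hT] at h1
      omega
    · intro t ht
      have h2 := (Finset.mem_filter.1 ht).2
      rw [not_not, smooth_lin_eval] at h2
      exact h2
  have h2 := htd K Ω n n x a x ha (fun b => ⟨X b, (aeval_X _ _).symm⟩)
  have h3 := hcnt.trans h2
  rw [Nat.cast_le] at h3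
  have hli : LinearIndependent Ω M.row := by
    rw [Fintype.linearIndependent_iff]
    intro g hg
    have hg' : ∀ t i, ∑ j, g j * M j (t, i) = 0 := by
      intro t i
      have := congrFun hg (t, i)
      simpa [Finset.sum_apply, Matrix.row] using this
    set qv : Ω := aeval x (q i₀) with hqv
    set Dq : Ω := ∑ j, g j * aeval x (pderiv j (q i₀)) with hDq
    have hw : (fun j => Dq * x j + D * qv * g j) = 0 := by
      apply smooth_vand _ T hTc
      intro t ht
      have hl0 := (Finset.mem_filter.1 ht).2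
      have h4 := hg' t i₀
      have h5 : ∑ j, g j * M j (t, i₀) = aeval x (lin K n (t : ℕ)) ^ (D - 1) *
          ∑ j : Fin (n + 1), (Dq * x j + D * qv * g j) * ((t : ℕ) : Ω) ^ (j : ℕ) := by
        have h6 : ∑ j : Fin (n + 1), (Dq * x j + D * qv * g j) * ((t : ℕ) : Ω) ^ (j : ℕ) =
            Dq * aeval x (lin K n (t : ℕ)) + D * qv * ∑ j : Fin (n + 1), g j * ((t : ℕ) : Ω) ^ (j : ℕ) := by
          rw [smooth_lin_eval, Finset.mul_sum, Finset.mul_sum, ← Finset.sum_add_distrib]
          apply Finset.sum_congr rfl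
          intro j _
          ring
        rw [h6, hDq, Finset.sum_mul, Finset.mul_sum, ← Finset.sum_add_distrib, Finset.mul_sum]
        apply Finset.sum_congr rfl
        intro j _
        rw [hMe]
        ring
      rw [h5] at h4
      exact (mul_eq_zero.1 h4).resolve_left (pow_ne_zero _ hl0)
    have heuler : ∑ j, x j * aeval x (pderiv j (q i₀)) = e * qv := by
      have h4 := congrArg (aeval x) (hq i₀).sum_X_mul_pderiv
      rw [map_sum, map_nsmul, nsmul_eq_mul] at h4
      rw [← h4]
      apply Finset.sum_congr rfl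
      intro j _
      rw [map_mul, aeval_X]
    have hD0 : (D : Ω) ≠ 0 := Nat.cast_ne_zero.2 (by omega)
    have hDq0 : Dq = 0 := by
      have h4 : ∑ j, (Dq * x j + D * qv * g j) * aeval x (pderiv j (q i₀)) = 0 := by
        apply Finset.sum_eq_zero
        intro j _
        have := congrFun hw j
        simp only [Pi.zero_apply] at this
        rw [this, zero_mul]
      have h5 : ∑ j, (Dq * x j + D * qv * g j) * aeval x (pderiv j (q i₀)) =
          Dq * (e * qv) + D * qv * Dq := by
        rw [← heuler]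
        nth_rewrite 3 [hDq]
        rw [Finset.mul_sum, Finset.mul_sum, ← Finset.sum_add_distrib]
        apply Finset.sum_congr rfl
        intro j _
        ring
      rw [h5] at h4
      have h6 : Dq * qv * ((e + D : ℕ) : Ω) = 0 := by
        push_cast
        linear_combination h4
      have h7 : ((e + D : ℕ) : Ω) ≠ 0 := Nat.cast_ne_zero.2 (by omega)
      rcases mul_eq_zero.1 ((mul_eq_zero.1 h6).resolve_right h7) with h | h
      · exact h
      · exact absurd h hi₀
    intro j
    have := congrFun hw j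
    simp only [Pi.zero_apply, hDq0, zero_mul, zero_add] at this
    exact (mul_eq_zero.1 this).resolve_left (mul_ne_zero hD0 hi₀)
  rw [hli.rank_matrix, Fintype.card_fin] at h3
  omega

/-- the singular points of the general hypersurface are in the base locus -/
theorem t_out (h1 : Spec_stm) (h2 : Count_stm) (h3 : Td_stm)
    (K : Type) [Field K] [CharZero K] (n L D e : ℕ) (ι : Type) [Fintype ι]
    (q : ι → MvPolynomial (Fin (n + 1)) K) (hq : ∀ i, (q i).IsHomogeneous e) (hD : 1 ≤ D)
    (hL : 2 * n + 1 ≤ L) :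
    ∃ Δ : MvPolynomial (Fin L × ι) K, Δ ≠ 0 ∧
      ∀ (Ω : Type) [Field Ω] [Algebra K Ω] (c : Fin L × ι → Ω), aeval c Δ ≠ 0 →
        ∀ x : Fin (n + 1) → Ω, x ≠ 0 → (∀ j, eval x (pderiv j (∑ t : Fin L,
          (∑ i, C (c (t, i)) * map (algebraMap K Ω) (q i)) * lin Ω n (t : ℕ) ^ D)) = 0) →
        ∀ i, aeval x (q i) = 0 := by
  classical
  obtain ⟨P, hP⟩ : ∃ P : Fin (n + 1) → MvPolynomial ((Fin L × ι) ⊕ Fin (n + 1)) K, P = fun j =>
    ∑ s : Fin L × ι, X (Sum.inl s) *
      rename Sum.inr (pderiv j (q s.2 * lin K n (s.1 : ℕ) ^ D)) := ⟨_, rfl⟩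
  have hPe : ∀ (Ω : Type) [Field Ω] [Algebra K Ω] (y : Fin L × ι → Ω) (x : Fin (n + 1) → Ω) j,
      aeval (Sum.elim y x) (P j) =
        ∑ s : Fin L × ι, aeval x (pderiv j (q s.2 * lin K n (s.1 : ℕ) ^ D)) * y s := by
    intro Ω _ _ y x j
    rw [hP, map_sum]
    apply Finset.sum_congr rfl
    intro s _
    rw [map_mul, aeval_X, aeval_rename, Sum.elim_comp_inr, Sum.elim_inl, mul_comm]
  have hhom : ∀ j (s : Fin L × ι), (pderiv j (q s.2 * lin K n (s.1 : ℕ) ^ D)).IsHomogeneous (e + 1 * D - 1) :=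
    fun j s => ((hq s.2).mul ((smooth_lin_hom K n s.1).pow D)).pderiv
  have hgen : ∀ p : Fin (n + 1) × ι, ∃ Δ : MvPolynomial (Fin L × ι) K, Δ ≠ 0 ∧
      ∀ (Ω : Type) [Field Ω] [Algebra K Ω] (c : Fin L × ι → Ω) (x : Fin (n + 1) → Ω), aeval c Δ ≠ 0 →
        (∀ i, aeval (Sum.elim c x) (P i) = 0) →
          aeval (Sum.elim c x) (X (Sum.inr p.1) * rename Sum.inr (q p.2) :
            MvPolynomial ((Fin L × ι) ⊕ Fin (n + 1)) K) = 0 := by
    rintro ⟨a, i₀⟩
    apply h1
    intro Ω _ _ y x hy hz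
    rw [map_mul, aeval_X, Sum.elim_inr, aeval_rename, Sum.elim_comp_inr]
    by_cases hxa : x a = 0
    · rw [hxa, zero_mul]
    have hz' : ∀ j, ∑ s : Fin L × ι, aeval x (pderiv j (q s.2 * lin K n (s.1 : ℕ) ^ D)) * y s = 0 :=
      fun j => by rw [← hPe]; exact hz j
    have h5 := out_core h2 h3 hq hD hL Ω y (fun j => (x a)⁻¹ * x j) hy a
      (inv_mul_cancel₀ hxa) (by
      intro j
      have h4 : ∀ s : Fin L × ι, aeval (fun j => (x a)⁻¹ * x j) (pderiv j (q s.2 * lin K n (s.1 : ℕ) ^ D)) * y s =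
          (x a)⁻¹ ^ (e + 1 * D - 1) * (aeval x (pderiv j (q s.2 * lin K n (s.1 : ℕ) ^ D)) * y s) := by
        intro s
        rw [smooth_scale (hhom j s)]
        ring
      rw [Finset.sum_congr rfl (fun s _ => h4 s), ← Finset.mul_sum, hz' j, mul_zero]) i₀
    rw [smooth_scale (hq i₀)] at h5
    rw [(mul_eq_zero.1 h5).resolve_left (pow_ne_zero _ (inv_ne_zero hxa)), mul_zero]
  choose Δ hΔ0 hΔ using hgen
  refine ⟨∏ p, Δ p, Finset.prod_ne_zero_iff.2 (fun p _ => hΔ0 p), ?_⟩
  intro Ω _ _ c hc x hx hcon i₀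
  rw [map_prod, Finset.prod_ne_zero_iff] at hc
  obtain ⟨a, ha⟩ : ∃ a, x a ≠ 0 := by
    by_contra h
    push Not at h
    exact hx (funext h)
  have h4 := hΔ (a, i₀) Ω c x (hc _ (Finset.mem_univ _)) (by
    intro j
    rw [hPe, ← hcon j]
    rw [map_sum, map_sum, Fintype.sum_prod_type]
    apply Finset.sum_congr rfl
    intro t _
    rw [Finset.sum_mul, map_sum, map_sum]
    apply Finset.sum_congr rfl
    intro i _
    rw [smooth_lin_map K Ω, mul_assoc, ← map_pow, ← map_mul, pderiv_C_mul, pderiv_map, (eval x).map_mul,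
      eval_C, eval_map, ← aeval_def, mul_comm])
  rw [map_mul, aeval_X, Sum.elim_inr, aeval_rename, Sum.elim_comp_inr] at h4
  exact (mul_eq_zero.1 h4).resolve_left ha

end smooth

end Pool.Agent.H911.KD
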