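import Pool.Agent.H911.GD.BaseL
import Pool.Agent.H911.KD.Main
import Pool.Agent.H911.GD.MoveD
import Pool.Agent.H911.GD.Hyp4

/-!
A hypersurface with a small singular locus through a given variety in a linear subspace: its entire
curves, its maps from the punctured disc which do not extend and its closed subvarieties of positive
dimension which are not of general type are in the variety.
-/

set_option autoImplicit false

namespace Pool.Agent.H911.KD

open MvPolynomial Metric Filter Topology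
open Pool.Agent.N254.SQ (Eqs IsForm aeval_zero_of aeval_scale Gen SmoothForm powerForm Extends
  leaves4 hyp Smooth disc_open t_ext)
open Pool.Agent.W602.GT (SubVar GeneralType val coords)
open Pool.Agent.W603.BP (Ext)
open Pool.Agent.H911.QD (emb emb_inj emb_surj emb_val ext_apply ext_smul)
open Pool.Agent.H911.GD (bqs bqs_hom bqs_zero bqs_of jacs jacs_rank jacs_rank2 pt_trdeg_lt pt_trdeg
  ext_eqs eqs_ext bind_form bind_eval Dp Prop4)

/-- The singular locus of the hypersurface `A = 0` does not meet some linear subspace of codimension at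
most `k` (given by `k` linear equations): it is of dimension less than `k`. For `k = 0` the
hypersurface is smooth. -/
def SmallSing {N : ℕ} (k : ℕ) (A : MvPolynomial (Fin (N + 1)) ℂ) : Prop :=
  ∃ l : Fin k → Fin (N + 1) → ℂ, ∀ x : Fin (N + 1) → ℂ, x ≠ 0 → (∀ i, ∑ j, l i j * x j = 0) →
    ∃ j, eval x (pderiv j A) ≠ 0

/-- the properties of the hypersurface `A = 0` through the variety with generic point `z` -/
structure PropK {N : ℕ} (k : ℕ) {L : Type} [Field L] [Algebra ℂ L] (z : Fin (N + 1) → L)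
    (A : MvPolynomial (Fin (N + 1)) ℂ) : Prop where
  form : IsForm A
  sing : SmallSing k A
  out : ∀ x : Fin (N + 1) → ℂ, x ≠ 0 → (∀ j, eval x (pderiv j A) = 0) →
    ∀ p ∈ Eqs z, eval x p = 0
  van : ∀ (Ω : Type) [Field Ω] [Algebra ℂ Ω] (x : Fin (N + 1) → Ω),
    (∀ p ∈ Eqs z, aeval x p = 0) → aeval x A = 0
  sub : ∀ (L' : Type) [Field L'] [Algebra ℂ L'] (w : ℕ) (y : Fin (N + 1) → L'), 1 ≤ w →
    SubVar (fun _ : Unit => A) L' w y → GeneralType ℂ L' w ∨ ∀ p ∈ Eqs z, aeval y p = 0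
  curves : ∀ f : ℂ → Fin (N + 1) → ℂ, Differentiable ℂ f → (∀ w, f w ≠ 0) →
    (∀ w, eval (f w) A = 0) →
    (∀ a b, ∃ c : ℂ, f b = c • f a) ∨ ∀ w, ∀ p ∈ Eqs z, eval (f w) p = 0
  discs : ∀ f : ℂ → Fin (N + 1) → ℂ, DifferentiableOn ℂ f Dp → (∃ w ∈ Dp, f w ≠ 0) →
    (∀ w ∈ Dp, eval (f w) A = 0) → Extends f ∨ ∀ w ∈ Dp, ∀ p ∈ Eqs z, eval (f w) p = 0

/-- the hypersurface is not the whole space -/
theorem small_ne {N k : ℕ} (hk : k ≤ N) {A : MvPolynomial (Fin (N + 1)) ℂ} (hA : SmallSing k A) :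
    A ≠ 0 := by
  obtain ⟨l, hl⟩ := hA
  rintro rfl
  let φ : (Fin (N + 1) → ℂ) →ₗ[ℂ] (Fin k → ℂ) := (Matrix.of l).mulVecLin
  have h1 : 0 < Module.finrank ℂ (LinearMap.ker φ) := by
    have h2 := LinearMap.finrank_range_add_finrank_ker φ
    have h3 := Submodule.finrank_le (LinearMap.range φ)
    rw [Module.finrank_fin_fun] at h2 h3
    omega
  have h4 := Module.nontrivial_of_finrank_pos h1
  obtain ⟨⟨x, hx⟩, hx0⟩ := exists_ne (0 : LinearMap.ker φ)
  obtain ⟨j, hj⟩ := hl x (fun h => hx0 (Subtype.ext h)) (fun i => by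
    have h2 := congrFun (LinearMap.mem_ker.1 hx) i
    exact h2)
  rw [map_zero, map_zero] at hj
  exact hj rfl

/-- smooth hypersurfaces -/
theorem small_zero {N : ℕ} {A : MvPolynomial (Fin (N + 1)) ℂ} : SmallSing 0 A ↔ SmoothForm A := by
  constructor
  · rintro ⟨l, hl⟩ x hx
    exact hl x hx fun i => i.elim0
  · intro h
    exact ⟨fun i => i.elim0, fun x hx _ => h x hx⟩

section

variable {κ : Type} {n N : ℕ} (h : n ≤ N) {e : ℕ} {F : κ → MvPolynomial (Fin (n + 1)) ℂ}

/-- the pointwise condition -/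
theorem bases_ptk [Fintype κ] {L : Type} [Field L] [Algebra ℂ L] {w k : ℕ}
    {z : Fin (n + 1) → L} (hz : Gen L w z) (hN : n + w ≤ N + k)
    (hV : ∀ (Ω : Type) [Field Ω] [Algebra ℂ Ω] (x : Fin (n + 1) → Ω),
      (∀ k, aeval x (F k) = 0) → ∀ p ∈ Eqs z, aeval x p = 0)
    (hF : ∀ k, (F k).IsHomogeneous e)
    (hd : ∃ k i, aeval z (pderiv i (F k)) ≠ 0) (Ω : Type) [Field Ω] [Algebra ℂ Ω]
    (x : Fin (N + 1) → Ω) (a : Fin (N + 1)) (ha : x a = 1)
    (hq : ∀ i, aeval x (bqs h e F i) = 0) :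
    Algebra.trdeg ℂ (Algebra.adjoin ℂ (Set.range x)) <
      (((Matrix.of fun i j => (aeval x (pderiv j (bqs h e F i)) : Ω)).rank + k : ℕ) :
        Cardinal) := by
  have hx0 : x ≠ 0 := by
    intro h1
    rw [h1] at ha
    exact zero_ne_one ha
  obtain ⟨h1, h2⟩ := bqs_zero h x hx0 hq
  rw [QD.range_eq h x h1]
  obtain ⟨b, hb⟩ := emb_surj h a (by
    by_contra hcon
    push Not at hcon
    rw [h1 a hcon] at ha
    exact zero_ne_one ha)
  have hb1 : x (emb h b) = 1 := by rw [hb, ha]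
  have hE := hV Ω _ h2
  change _ < (((jacs h e F x).rank + k : ℕ) : Cardinal)
  obtain ⟨k₀, i, hki⟩ := hd
  by_cases hki' : aeval (fun j => x (emb h j)) (pderiv i (F k₀)) = 0
  · have h3 := pt_trdeg_lt hz b (fun j => x (emb h j)) hb1 hE
      ⟨_, (hF k₀).pderiv⟩ hki hki'
    have h4 := jacs_rank (e := e) (F := F) h x a ha h1
    refine h3.trans_le ?_
    have h5 : w ≤ (jacs h e F x).rank + k := by omega
    exact_mod_cast h5
  · have h3 := pt_trdeg hz b (fun j => x (emb h j)) hb1 hE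
    have h4 := jacs_rank2 (e := e) h x a ha h1 k₀ i hki'
    refine h3.trans_lt ?_
    have h5 : w < (jacs h e F x).rank + k := by omega
    exact_mod_cast h5

end

theorem exists_hypk (N e k : ℕ) (hN1 : 1 ≤ N) (he : 1 ≤ e) : ∃ D₁ : ℕ, ∀ D, D₁ ≤ D →
    ∀ (M : ℕ) (_ : M ≤ N) (w : ℕ) (L : Type) [Field L] [Algebra ℂ L] (z : Fin (M + 1) → L),
      Gen L w z → M + w ≤ N + k → ∀ (κ : Type) [Fintype κ]
      (F : κ → MvPolynomial (Fin (M + 1)) ℂ),
      (∀ k, (F k).IsHomogeneous e) → (∀ k, aeval z (F k) = 0) →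
      (∀ (Ω : Type) [Field Ω] [Algebra ℂ Ω] (x : Fin (M + 1) → Ω), (∀ k, aeval x (F k) = 0) →
        ∀ p ∈ Eqs z, aeval x p = 0) → (∃ k i, aeval z (pderiv i (F k)) ≠ 0) →
      ∃ Q : Fin (N * (2 * N + 1)) → MvPolynomial (Fin (N + 1)) ℂ,
        (∀ t, (Q t).IsHomogeneous e) ∧ PropK k (QD.ext N z) (powerForm D Q) := by
  obtain ⟨D₁, H⟩ := main_fourk leaves4 N e k hN1 he
  refine ⟨D₁, fun D hD M h w L _ _ z hz hNw κ _ F hF hFz hV hd => ?_⟩
  obtain ⟨c, l, hc1, hc0, hc2⟩ := H D hD ℂ _ (bqs h e F) (bqs_hom h he hF)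
    (fun Ω _ _ x a ha hq => bases_ptk h hz hNw hV hF hd Ω x a ha hq)
  obtain ⟨c2, c3, c4⟩ := hc2 (RingHom.id ℂ)
  simp only [MvPolynomial.map_id] at c2 c3 c4
  have hhom : ∀ t, (∑ i, C (c (t, i)) * bqs h e F i).IsHomogeneous e := by
    intro t
    refine IsHomogeneous.sum _ _ _ fun i _ => ?_
    have h2 := (isHomogeneous_C (Fin (N + 1)) (c (t, i))).mul (bqs_hom h he hF i)
    rwa [zero_add] at h2
  have hA : powerForm D (fun t => ∑ i, C (c (t, i)) * bqs h e F i) = hyp (bqs h e F) D c := rfl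
  -- zeros of all `q i`
  have hzero : ∀ (Ω : Type) [Field Ω] [Algebra ℂ Ω] (x : Fin (N + 1) → Ω), x ≠ 0 →
      (∀ i, aeval x (bqs h e F i) = 0) → ∀ p ∈ Eqs (QD.ext N z), aeval x p = 0 := by
    intro Ω _ _ x hx hq
    obtain ⟨h1, h2⟩ := bqs_zero h x hx hq
    exact ext_eqs h h1 (hV Ω _ h2)
  have hforms : ∀ x : Fin (N + 1) → ℂ, (∀ i, eval x (bqs h e F i) = 0) →
      ∀ p ∈ Eqs (QD.ext N z), eval x p = 0 := by
    intro x hx p hp
    by_cases hx0 : x = 0
    · obtain ⟨⟨c, hc⟩, hpz⟩ := hp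
      rw [hx0]
      rcases Nat.eq_zero_or_pos c with h0 | h0
      · rw [h0] at hc
        have h1 : p = C (coeff 0 p) := by
          rw [← totalDegree_eq_zero_iff_eq_C]
          by_cases hp0 : p = 0
          · rw [hp0, totalDegree_zero]
          · exact hc.totalDegree hp0
        rw [h1, aeval_C] at hpz
        have h2 := (map_eq_zero _).1 hpz
        rw [h1, h2, C_0, map_zero]
      · have h1 := aeval_scale (Ω := ℂ) hc (0 : ℂ) (0 : Fin (N + 1) → ℂ)
        rw [zero_smul, zero_pow (by omega), zero_mul] at h1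
        exact h1
    · exact hzero ℂ x hx0 hx p hp
  refine ⟨fun t => ∑ i, C (c (t, i)) * bqs h e F i, hhom, ?_⟩
  rw [hA]
  refine ⟨?_, ?_, ?_, ?_, ?_, ?_, ?_⟩
  · refine ⟨e + D, ?_⟩
    rw [← hA]
    refine IsHomogeneous.sum _ _ _ fun t _ => ?_
    refine (hhom t).mul ?_
    have h1 : (∑ j : Fin (N + 1), C (((t : ℕ) : ℂ) ^ (j : ℕ)) * X j :
        MvPolynomial (Fin (N + 1)) ℂ).IsHomogeneous 1 := by
      refine IsHomogeneous.sum _ _ _ fun j _ => ?_
      have h2 := (isHomogeneous_C (Fin (N + 1)) (((t : ℕ) : ℂ) ^ (j : ℕ))).mul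
        (isHomogeneous_X ℂ j)
      rwa [zero_add] at h2
    have h2 := h1.pow D
    rwa [one_mul] at h2
  · refine ⟨l, fun y hy hly => ?_⟩
    obtain ⟨j, hj⟩ := hc1 ℂ (RingHom.id ℂ) y hy hly
    rw [MvPolynomial.map_id] at hj
    exact ⟨j, hj⟩
  · intro x hx hs
    refine hforms x fun i => ?_
    have h1 := hc0 ℂ (RingHom.id ℂ) x hx (fun j => by rw [MvPolynomial.map_id]; exact hs j) i
    rwa [MvPolynomial.map_id] at h1
  · intro Ω _ _ x hx
    obtain ⟨h1, h2⟩ := eqs_ext h hx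
    have h3 := bqs_of h (e := e) x h1 (fun k => h2 (F k) ⟨⟨e, hF k⟩, hFz k⟩)
    unfold hyp
    rw [map_sum]
    refine Finset.sum_eq_zero fun t _ => ?_
    rw [map_mul, map_sum, Finset.sum_eq_zero, zero_mul]
    intro i _
    rw [map_mul, h3 i, mul_zero]
  · intro L' _ _ w' y' hw' hy'
    rcases c3 L' w' y' hw' hy' with h1 | h1
    · exact Or.inr (hzero L' y' hy'.ne h1)
    · exact Or.inl h1
  · intro f hf hf0 hfA
    by_cases hcon : ∀ a b, ∃ c : ℂ, f b = c • f a
    · exact Or.inl hcon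
    · right
      intro w
      have hnc : ∃ i j z w, f z i * f w j ≠ f z j * f w i := by
        by_contra h2
        push Not at h2
        apply hcon
        intro z w
        obtain ⟨j0, hj0⟩ : ∃ j, f z j ≠ 0 := by
          by_contra h3
          push Not at h3
          exact hf0 z (funext h3)
        refine ⟨f w j0 / f z j0, funext fun i => ?_⟩
        rw [Pi.smul_apply, smul_eq_mul, div_mul_eq_mul_div, eq_div_iff hj0]
        exact h2 i j0 w z
      have h1 := c2 (fun j z => f z j) (fun j => (differentiable_pi.1 hf) j)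
        (fun z => by
          by_contra h2
          push Not at h2
          exact hf0 z (funext h2)) (fun z => hfA z) hnc w
      exact hforms (f w) h1
  · intro f hf hfn hfA
    have hmem : ∀ z ∈ Ext (1 : ℝ), z⁻¹ ∈ Dp := by
      intro z hz
      have hz1 : 1 < ‖z‖ := hz
      have hz0 : z ≠ 0 := Pool.Agent.W603.BP.ext_ne_zero zero_le_one hz
      refine ⟨?_, inv_ne_zero hz0⟩
      rw [mem_ball_zero_iff, norm_inv]
      exact inv_lt_one_of_one_lt₀ hz1
    have hinv : ∀ w ∈ Dp, w⁻¹ ∈ Ext (1 : ℝ) := by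
      intro w hw
      have hw0 : w ≠ 0 := hw.2
      change 1 < ‖w⁻¹‖
      rw [norm_inv]
      exact (one_lt_inv₀ (norm_pos_iff.2 hw0)).2 (mem_ball_zero_iff.1 hw.1)
    have hfan : ∀ j, ∀ w ∈ Dp, AnalyticAt ℂ (fun w => f w j) w := by
      intro j w hw
      have h1 : DifferentiableOn ℂ (fun w => f w j) Dp := fun w hw =>
        (differentiableWithinAt_pi.1 (hf w hw)) j
      exact h1.analyticAt (disc_open.mem_nhds hw)
    rcases c4 1 (fun j z => f z⁻¹ j) one_pos (by
      intro j z hz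
      exact AnalyticAt.comp' (f := fun z : ℂ => z⁻¹) (g := fun w => f w j) (hfan j _ (hmem z hz))
        (analyticAt_inv (Pool.Agent.W603.BP.ext_ne_zero zero_le_one hz))) (by
      intro z hz
      exact hfA _ (hmem z hz)) with h1 | h1
    · right
      intro w hw
      apply hforms
      intro i
      have h2 := h1 _ (hinv w hw) i
      rw [inv_inv] at h2
      exact h2
    · left
      refine (t_ext N f hf hfn).2 ?_
      rintro j k ⟨w, hw, hwk⟩
      obtain ⟨ρ, b, hρ, hb, hρf⟩ := h1 j k ⟨w⁻¹, hinv w hw, by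
          change f w⁻¹⁻¹ k ≠ 0
          rwa [inv_inv]⟩
      have hb0 : 0 < b := lt_of_lt_of_le one_pos hb
      refine ⟨ρ, hρ, ?_⟩
      filter_upwards [Pool.Agent.W603.BP.PB_mem (inv_pos.2 hb0)] with w hw
      have h2 := hρf w⁻¹ (by
        have := Pool.Agent.W603.BP.inv_mem_Ext hw
        rwa [inv_inv] at this)
      rwa [inv_inv] at h2

end Pool.Agent.H911.KD
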