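import Pool.Agent.H911.GD.Final2
import Pool.Agent.H911.GD.Stm4
import Pool.Agent.H911.KD.Hyp

/-!
The exceptional sets of varieties and of hypersurfaces with a small singular locus: the abstract
argument, from hypersurfaces to varieties.
-/

set_option autoImplicit false

namespace Pool.Agent.H911.KD

open MvPolynomial Metric
open Pool.Agent.N254.SQ (Eqs IsForm aeval_zero_of aeval_scale Gen NotIn ValueNotIn LogGeneral
  OnSpecialQ OnCurvesQ OnDiscsQ Component Exc Idl t_comp t_comp2 Fm qf_mul qf_eqs qf_eqsForm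
  SmoothForm comp_trdeg ce_general powerForm)
open Pool.Agent.W602.GT (SubVar GeneralType coords)
open Pool.Agent.H911.QD (emb ext_apply)
open Pool.Agent.H911.GD (Typ typ_special typ_curves typ_discs typ_con disc_eqs Dp Moves Mdl Pair
  Compat gen_mdl gen_ext exists_eqs exists_pair transfer_log transfer_iff transfer_notIn Excep
  mdl_proj mdl_affine compat_one compat_affine)

/-! ### from hypersurfaces to varieties -/

section

variable {N : ℕ} {A : MvPolynomial (Fin (N + 1)) ℂ} {L : Type} [Field L] [Algebra ℂ L] {w : ℕ}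
  {z : Fin (N + 1) → L} (hw : 1 ≤ w) (hz : Gen L w z) {k : ℕ} (hA : PropK k z A)
  {T : Set (MvPolynomial (Fin (N + 1)) ℂ)} (hzT : NotIn T z)
include hw hz hA hzT

omit hw hz hzT in
theorem base_special {F : MvPolynomial (Fin (N + 1)) ℂ} (hF : F ∈ Eqs z) :
    OnSpecialQ {A} T F := by
  intro L' _ _ w' y' hw' hy' _
  rcases hA.sub L' w' y' hw' ⟨hy'.ne, fun _ => hy'.mem ⟨A, rfl⟩, hy'.gen, hy'.dim⟩ with h1 | h1
  · exact Or.inl (ce_general h1 _)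
  · exact Or.inr (h1 F hF)

omit hw hz hzT in
theorem base_curves {F : MvPolynomial (Fin (N + 1)) ℂ} (hF : F ∈ Eqs z) :
    OnCurvesQ {A} T F := by
  intro f hf hf0 hfA _
  rcases hA.curves f hf hf0 (fun w => hfA w A rfl) with h1 | h1
  · exact Or.inl h1
  · exact Or.inr fun w => h1 w F hF

omit hw hz hzT in
theorem base_discs {F : MvPolynomial (Fin (N + 1)) ℂ} (hF : F ∈ Eqs z) :
    OnDiscsQ {A} T F := by
  intro f hf hf0 hS
  have h2 := disc_eqs (S := {A}) (fun p hp => by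
    rw [Set.mem_singleton_iff] at hp
    rw [hp]
    exact hA.form) hf hS
  rcases hA.discs f hf hf0 (fun w hw => h2 w hw A rfl) with h1 | h1
  · exact Or.inl h1
  · exact Or.inr fun w hw => h1 w hw F hF

omit hw in
theorem comp_sub {L' : Type} [Field L'] [Algebra ℂ L'] {w' : ℕ} {y' : Fin (N + 1) → L'}
    (hT : ∀ F ∈ T, IsForm F) (hcl : ∀ G, IsForm G → aeval y' G = 0 → aeval z G = 0) :
    NotIn T y' := by
  obtain ⟨H, hH, hH0⟩ := hzT
  exact ⟨H, hH, fun h0 => hH0 (hcl H (hT H hH) h0)⟩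

/-- if no component of the exceptional set `I` of the hypersurface is of log general type, then it does
not contain the variety -/
theorem backward_ideal (hT : ∀ F ∈ T, IsForm F) (I : MvPolynomial (Fin (N + 1)) ℂ → Prop)
    (hI : Idl I) (hIA : I A)
    (hno : ∀ (L' : Type) [Field L'] [Algebra ℂ L'] (w' : ℕ) (y' : Fin (N + 1) → L'), 1 ≤ w' →
      SubVar (fun _ : Unit => A) L' w' y' → NotIn T y' → LogGeneral T L' w' y' → ¬ Component I y')
    (hlog : LogGeneral T L w z) : ∃ G, IsForm G ∧ I G ∧ aeval z G ≠ 0 := by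
  by_contra hcon
  push Not at hcon
  have hzA : aeval z A = 0 := hA.van L z fun p hp => hp.2
  rcases t_comp N I hI L w z hz (fun G hG hIG => hcon G hG hIG) with ⟨H, hH, hH0, hHI⟩ |
    ⟨L', iF, iA, w', y', hgen, hw', hI', hcl, ⟨G, hG, hG0, hG1⟩, hcomp⟩
  · exact hno L w z hw ⟨hz.ne, fun _ => hzA, hz.gen, hz.dim⟩ hzT hlog
      ⟨fun G hG hIG => hcon G hG hIG, H, hH, hH0, hHI⟩
  · have hsub : SubVar (fun _ : Unit => A) L' w' y' :=
      ⟨hgen.ne, fun _ => hI' A hA.form hIA, hgen.gen, hgen.dim⟩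
    have hco : Component I y' := ⟨hI', hcomp⟩
    rcases hA.sub L' w' y' hw' hsub with h | h
    · exact hno L' w' y' hw' hsub (comp_sub hz hA hzT hT hcl (w' := w')) (ce_general h _) hco
    · exact hG1 (h G ⟨hG, hG0⟩)

variable {P : ∀ n : ℕ, Set (MvPolynomial (Fin (n + 1)) ℂ) →
    Set (MvPolynomial (Fin (n + 1)) ℂ) → MvPolynomial (Fin (n + 1)) ℂ → Prop} (hP : Typ P)
  (hT : ∀ F ∈ T, IsForm F)
include hP hT

/-- one direction for the exceptional sets `P` -/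
theorem backward_imp
    (hno : ∀ (L' : Type) [Field L'] [Algebra ℂ L'] (w' : ℕ) (y' : Fin (N + 1) → L'), 1 ≤ w' →
      SubVar (fun _ : Unit => A) L' w' y' → NotIn T y' → LogGeneral T L' w' y' →
      ¬ Component (P N {A} T) y')
    (hlog : LogGeneral T L w z) : ∃ G, IsForm G ∧ aeval z G ≠ 0 ∧ P N (Eqs z) T G := by
  obtain ⟨G, hG, hIG, hGz⟩ := backward_ideal hw hz hA hzT hT (P N {A} T) (hP.idl N {A} T)
    (hP.van N {A} T A hA.form fun L _ _ x hx => hx A rfl) hno hlog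
  refine ⟨G, hG, hGz, hP.mono N {A} (Eqs z) T (fun L' _ _ x hx p hp => ?_) G hIG⟩
  rw [Set.mem_singleton_iff] at hp
  rw [hp]
  exact hA.van L' x hx

/-- both directions -/
theorem backward_iff
    (hEx : ∀ G, IsForm G → (P N {A} T G ↔ OnSpecialQ {A} T G))
    (hno : ∀ (L' : Type) [Field L'] [Algebra ℂ L'] (w' : ℕ) (y' : Fin (N + 1) → L'), 1 ≤ w' →
      SubVar (fun _ : Unit => A) L' w' y' → NotIn T y' → LogGeneral T L' w' y' →
      ¬ Component (OnSpecialQ {A} T) y') :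
    LogGeneral T L w z ↔ ∃ G, IsForm G ∧ aeval z G ≠ 0 ∧ P N (Eqs z) T G := by
  have hzA : aeval z A = 0 := hA.van L z fun p hp => hp.2
  constructor
  · intro hlog
    obtain ⟨G, hG, hIG, hGz⟩ := backward_ideal hw hz hA hzT hT (OnSpecialQ {A} T)
      (typ_special.idl N {A} T)
      (typ_special.van N {A} T A hA.form fun L _ _ x hx => hx A rfl) hno hlog
    refine ⟨G, hG, hGz, hP.mono N {A} (Eqs z) T (fun L' _ _ x hx p hp => ?_) G
      ((hEx G hG).2 hIG)⟩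
    rw [Set.mem_singleton_iff] at hp
    rw [hp]
    exact hA.van L' x hx
  · rintro ⟨G, hG, hGz, hPG⟩
    have h1 : P N {A} T (G * 1) := by
      refine hP.restr N {A} T L z G 1 hG ⟨0, isHomogeneous_one _ _⟩ (fun F hF hFz => ?_) hPG
      rw [mul_one]
      exact (hEx F hF).2 (base_special hA ⟨hF, hFz⟩)
    rw [mul_one] at h1
    have h2 := (hEx G hG).1 h1
    rcases h2 L w z hw ⟨hz.ne, fun p => by
      have h3 := p.2
      rw [Set.mem_singleton_iff] at h3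
      rw [h3]
      exact hzA, hz.gen, hz.dim⟩ hzT with h3 | h3
    · exact h3
    · exact absurd h3 hGz

end

/-! ### models -/

/-- the bounds for the exponents -/
theorem exists_bounds (N k : ℕ) (hN : 1 ≤ N) : ∃ D₁ : ℕ → ℕ, ∀ e D, 1 ≤ e → D₁ e ≤ D →
    ∀ (M : ℕ) (_ : M ≤ N) (w : ℕ) (L : Type) [Field L] [Algebra ℂ L] (z : Fin (M + 1) → L),
      Gen L w z → M + w ≤ N + k → ∀ (κ : Type) [Fintype κ]
      (F : κ → MvPolynomial (Fin (M + 1)) ℂ),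
      (∀ k, (F k).IsHomogeneous e) → (∀ k, aeval z (F k) = 0) →
      (∀ (Ω : Type) [Field Ω] [Algebra ℂ Ω] (x : Fin (M + 1) → Ω), (∀ k, aeval x (F k) = 0) →
        ∀ p ∈ Eqs z, aeval x p = 0) → (∃ k i, aeval z (pderiv i (F k)) ≠ 0) →
      ∃ Q : Fin (N * (2 * N + 1)) → MvPolynomial (Fin (N + 1)) ℂ,
        (∀ t, (Q t).IsHomogeneous e) ∧ PropK k (QD.ext N z) (powerForm D Q) := by
  have h : ∀ e : ℕ, ∃ D₁ : ℕ, 1 ≤ e → ∀ D, D₁ ≤ D →
    ∀ (M : ℕ) (_ : M ≤ N) (w : ℕ) (L : Type) [Field L] [Algebra ℂ L] (z : Fin (M + 1) → L),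
      Gen L w z → M + w ≤ N + k → ∀ (κ : Type) [Fintype κ]
      (F : κ → MvPolynomial (Fin (M + 1)) ℂ),
      (∀ k, (F k).IsHomogeneous e) → (∀ k, aeval z (F k) = 0) →
      (∀ (Ω : Type) [Field Ω] [Algebra ℂ Ω] (x : Fin (M + 1) → Ω), (∀ k, aeval x (F k) = 0) →
        ∀ p ∈ Eqs z, aeval x p = 0) → (∃ k i, aeval z (pderiv i (F k)) ≠ 0) →
      ∃ Q : Fin (N * (2 * N + 1)) → MvPolynomial (Fin (N + 1)) ℂ,
        (∀ t, (Q t).IsHomogeneous e) ∧ PropK k (QD.ext N z) (powerForm D Q) := by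
    intro e
    by_cases he : 1 ≤ e
    · obtain ⟨D₁, hD₁⟩ := exists_hypk N e k hN he
      exact ⟨D₁, fun _ => hD₁⟩
    · exact ⟨0, fun h => absurd h he⟩
  choose D₁ H using h
  exact ⟨D₁, fun e D he hD => H e he D hD⟩

/-- the property of the bounds -/
def Bounds (N k : ℕ) (D₁ : ℕ → ℕ) : Prop := ∀ e D, 1 ≤ e → D₁ e ≤ D →
    ∀ (M : ℕ) (_ : M ≤ N) (w : ℕ) (L : Type) [Field L] [Algebra ℂ L] (z : Fin (M + 1) → L),
      Gen L w z → M + w ≤ N + k → ∀ (κ : Type) [Fintype κ]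
      (F : κ → MvPolynomial (Fin (M + 1)) ℂ),
      (∀ k, (F k).IsHomogeneous e) → (∀ k, aeval z (F k) = 0) →
      (∀ (Ω : Type) [Field Ω] [Algebra ℂ Ω] (x : Fin (M + 1) → Ω), (∀ k, aeval x (F k) = 0) →
        ∀ p ∈ Eqs z, aeval x p = 0) → (∃ k i, aeval z (pderiv i (F k)) ≠ 0) →
      ∃ Q : Fin (N * (2 * N + 1)) → MvPolynomial (Fin (N + 1)) ℂ,
        (∀ t, (Q t).IsHomogeneous e) ∧ PropK k (QD.ext N z) (powerForm D Q)

section

variable {N k : ℕ} {D₁ : ℕ → ℕ} (H : Bounds N k D₁)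
include H

/-- every variety has models on hypersurfaces -/
theorem exists_models {n : ℕ} {L : Type} [Field L] [Algebra ℂ L] {w : ℕ} {y : Fin (n + 1) → L}
    (hy : Gen L w y) {M : ℕ} (hwM : w < M) (hM : M ≤ N) (hMN : M + w ≤ N + k)
    {A : Fin (M + 1) → MvPolynomial (Fin (n + 1)) ℂ} (hA : Mdl y A) :
    ∃ (e : ℕ) (z : Fin (N + 1) → L) (R : Fin (n + 1) → MvPolynomial (Fin (N + 1)) ℂ)
      (K : MvPolynomial (Fin (N + 1)) ℂ), 1 ≤ e ∧ Gen L w z ∧ Pair y z (QD.ext N A) R K ∧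
      ∀ D, D₁ e ≤ D → ∃ Q : Fin (N * (2 * N + 1)) → MvPolynomial (Fin (N + 1)) ℂ,
        (∀ t, (Q t).IsHomogeneous e) ∧ PropK k z (powerForm D Q) := by
  obtain ⟨e, κ, _, F, he, hF, hFz, hV, hd⟩ := exists_eqs (gen_mdl hy hA) hwM
  obtain ⟨R, K, hP⟩ := exists_pair hM hy.ne hA
  exact ⟨e, _, R, K, he, gen_ext hM (gen_mdl hy hA), hP, fun D hD =>
    H e D he hD M hM w L _ (gen_mdl hy hA) hMN κ F hF hFz hV hd⟩

/-- every variety has a model on a hypersurface -/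
theorem exists_model {n : ℕ} {L : Type} [Field L] [Algebra ℂ L] {w : ℕ} {y : Fin (n + 1) → L}
    (hy : Gen L w y) {M : ℕ} (hwM : w < M) (hM : M ≤ N) (hMN : M + w ≤ N + k)
    {A : Fin (M + 1) → MvPolynomial (Fin (n + 1)) ℂ} (hA : Mdl y A)
    {E : ℕ → Set ℕ} (hE : ∀ e, ∃ D ∈ E e, D₁ e ≤ D) :
    ∃ (e D : ℕ) (Q : Fin (N * (2 * N + 1)) → MvPolynomial (Fin (N + 1)) ℂ) (z : Fin (N + 1) → L)
      (R : Fin (n + 1) → MvPolynomial (Fin (N + 1)) ℂ) (K : MvPolynomial (Fin (N + 1)) ℂ),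
      D ∈ E e ∧ D₁ e ≤ D ∧ (∀ t, (Q t).IsHomogeneous e) ∧ SmallSing k (powerForm D Q) ∧
      Gen L w z ∧ PropK k z (powerForm D Q) ∧ Pair y z (QD.ext N A) R K := by
  obtain ⟨e, z, R, K, he, hz, hP, h⟩ := exists_models H hy hwM hM hMN hA
  obtain ⟨D, hDE, hD⟩ := hE e
  obtain ⟨Q, hQ, hp⟩ := h D hD
  exact ⟨e, D, Q, z, R, K, hDE, hD, hQ, hp.sing, hz, hp, hP⟩

end

/-- models of varieties of dimension at most `m` in `P^N` by finite birational projections -/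
def HasModels (T : ∀ n : ℕ, Set (MvPolynomial (Fin (n + 1)) ℂ)) (N m k : ℕ) : Prop :=
  ∀ (n : ℕ) (L : Type) [Field L] [Algebra ℂ L] (w : ℕ) (y : Fin (n + 1) → L), w ≤ m →
    Gen L w y → NotIn (T n) y →
    ∃ (M : ℕ) (A : Fin (M + 1) → MvPolynomial (Fin (n + 1)) ℂ), w < M ∧ M ≤ N ∧
      M + w ≤ N + k ∧ Mdl y A ∧ Compat y (QD.ext N A) (T n) (T N)

theorem models_one {N m k : ℕ} (h1 : m + 1 ≤ N) (h2 : 2 * m + 1 ≤ N + k) :
    HasModels (fun _ => {1}) N m k := by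
  intro n L _ _ w y hwm hy _
  obtain ⟨A, hA⟩ := mdl_proj hy
  exact ⟨w + 1, A, by omega, by omega, by omega, hA, compat_one y _⟩

theorem models_affine {N m k : ℕ} (h1 : m + 1 ≤ N) (h2 : 2 * m + 1 ≤ N + k) :
    HasModels (fun _ => {X 0}) N m k := by
  intro n L _ _ w y hwm hy hyT
  have hy0 : y 0 ≠ 0 := by
    obtain ⟨F, hF, h⟩ := hyT
    rw [Set.mem_singleton_iff] at hF
    rwa [hF, aeval_X] at h
  obtain ⟨A, hA, hA0⟩ := mdl_affine hy hy0
  refine ⟨w + 1, A, by omega, by omega, by omega, hA, compat_affine y _ ?_⟩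
  have h3 : QD.ext N A (emb (show w + 1 ≤ N by omega) 0) = A 0 :=
    ext_apply (show w + 1 ≤ N by omega) A 0
  rw [hA0] at h3
  exact h3

section

variable {P : ∀ n : ℕ, Set (MvPolynomial (Fin (n + 1)) ℂ) →
    Set (MvPolynomial (Fin (n + 1)) ℂ) → MvPolynomial (Fin (n + 1)) ℂ → Prop} (hP : Typ P)
include hP

/-- from hypersurfaces to one variety -/
theorem final_one {N k : ℕ} {D₁ : ℕ → ℕ} (H : Bounds N k D₁)
    {E : ℕ → Set ℕ} (hE : ∀ e, ∃ D ∈ E e, D₁ e ≤ D) {TN : Set (MvPolynomial (Fin (N + 1)) ℂ)}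
    (hTN : ∀ F ∈ TN, IsForm F)
    (h : ∀ (e D : ℕ) (Q : Fin (N * (2 * N + 1)) → MvPolynomial (Fin (N + 1)) ℂ), D ∈ E e →
      D₁ e ≤ D → (∀ t, (Q t).IsHomogeneous e) → SmallSing k (powerForm D Q) →
      Excep P (powerForm D Q) TN) {n : ℕ} {L : Type} [Field L] [Algebra ℂ L] {w : ℕ}
    {y : Fin (n + 1) → L} (hw : 1 ≤ w) (hy : Gen L w y) {T : Set (MvPolynomial (Fin (n + 1)) ℂ)}
    (hT : ∀ F ∈ T, IsForm F) (hyT : NotIn T y) {M : ℕ} (hwM : w < M) (hM : M ≤ N)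
    (hMN : M + w ≤ N + k)
    {A : Fin (M + 1) → MvPolynomial (Fin (n + 1)) ℂ} (hA : Mdl y A)
    (hC : Compat y (QD.ext N A) T TN)
    (htr : ∀ (z : Fin (N + 1) → L) (R : Fin (n + 1) → MvPolynomial (Fin (N + 1)) ℂ)
      (K : MvPolynomial (Fin (N + 1)) ℂ), Pair y z (QD.ext N A) R K →
      ((∃ G, IsForm G ∧ aeval z G ≠ 0 ∧ P N (Eqs z) TN G) ↔
        ∃ G, IsForm G ∧ aeval y G ≠ 0 ∧ P n (Eqs y) T G)) :
    LogGeneral T L w y ↔ ∃ G, IsForm G ∧ aeval y G ≠ 0 ∧ P n (Eqs y) T G := by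
  obtain ⟨e, D, Q, z, R, K, hDE, hD, hQ, hsm, hz, hp, hPr⟩ :=
    exists_model H hy hwM hM hMN hA hE
  obtain ⟨h1, h2⟩ := h e D Q hDE hD hQ hsm
  rw [← transfer_log hPr hy.ne hT hTN hC, ← htr z R K hPr]
  exact backward_iff hw hz hp (transfer_notIn hPr hy.ne hC hyT) hP hTN h1 h2

/-- from hypersurfaces to varieties -/
theorem final_backward (hM : Moves P) {T : ∀ n : ℕ, Set (MvPolynomial (Fin (n + 1)) ℂ)}
    (hT : ∀ n, ∀ F ∈ T n, IsForm F) {N m k : ℕ} (hmod : HasModels T N m k) {D₁ : ℕ → ℕ}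
    (H : Bounds N k D₁) {E : ℕ → Set ℕ} (hE : ∀ e, ∃ D ∈ E e, D₁ e ≤ D)
    (h : ∀ (e D : ℕ) (Q : Fin (N * (2 * N + 1)) → MvPolynomial (Fin (N + 1)) ℂ), D ∈ E e →
      D₁ e ≤ D → (∀ t, (Q t).IsHomogeneous e) → SmallSing k (powerForm D Q) →
      Excep P (powerForm D Q) (T N)) {n : ℕ} {L : Type} [Field L] [Algebra ℂ L] {w : ℕ}
    {y : Fin (n + 1) → L} (hw : 1 ≤ w) (hwm : w ≤ m) (hy : Gen L w y) (hyT : NotIn (T n) y) :
    LogGeneral (T n) L w y ↔ ∃ G, IsForm G ∧ aeval y G ≠ 0 ∧ P n (Eqs y) (T n) G := by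
  obtain ⟨M, A, hwM, hMN', hMN, hA, hC⟩ := hmod n L w y hwm hy hyT
  exact final_one hP H hE (hT N) h hw hy (hT n) hyT hwM hMN' hMN hA hC fun z R K hPr =>
    transfer_iff hM hPr (hT n) (hT N) hC

/-- one direction only -/
theorem final_imp (hM : Moves P) {T : ∀ n : ℕ, Set (MvPolynomial (Fin (n + 1)) ℂ)}
    (hT : ∀ n, ∀ F ∈ T n, IsForm F) {N m k : ℕ} (hmod : HasModels T N m k) {D₁ : ℕ → ℕ}
    (H : Bounds N k D₁) {E : ℕ → Set ℕ} (hE : ∀ e, ∃ D ∈ E e, D₁ e ≤ D)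
    (h : ∀ (e D : ℕ) (Q : Fin (N * (2 * N + 1)) → MvPolynomial (Fin (N + 1)) ℂ), D ∈ E e →
      D₁ e ≤ D → (∀ t, (Q t).IsHomogeneous e) → SmallSing k (powerForm D Q) →
      ∀ (L' : Type) [Field L'] [Algebra ℂ L'] (w' : ℕ) (y' : Fin (N + 1) → L'), 1 ≤ w' →
        SubVar (fun _ : Unit => powerForm D Q) L' w' y' → NotIn (T N) y' →
        LogGeneral (T N) L' w' y' → ¬ Component (P N {powerForm D Q} (T N)) y')
    {n : ℕ} {L : Type} [Field L] [Algebra ℂ L] {w : ℕ}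
    {y : Fin (n + 1) → L} (hw : 1 ≤ w) (hwm : w ≤ m) (hy : Gen L w y) (hyT : NotIn (T n) y)
    (hlog : LogGeneral (T n) L w y) : ∃ G, IsForm G ∧ aeval y G ≠ 0 ∧ P n (Eqs y) (T n) G := by
  obtain ⟨M, A, hwM, hMN', hMN, hA, hC⟩ := hmod n L w y hwm hy hyT
  obtain ⟨e, D, Q, z, R, K, hDE, hD, hQ, hsm, hz, hp, hPr⟩ :=
    exists_model H hy hwM hMN' hMN hA hE
  rw [← transfer_iff hM hPr (hT n) (hT N) hC]
  exact backward_imp hw hz hp (transfer_notIn hPr hy.ne hC hyT) hP (hT N)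
    (fun L' _ _ w' y' hw' hy' hyT' hl => h e D Q hDE hD hQ hsm L' w' y' hw' hy' hyT' hl)
    ((transfer_log hPr hy.ne (hT n) (hT N) hC).2 hlog)

end

end Pool.Agent.H911.KD
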