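import Pool.Agent.H911.KD.Stm

/-!
The comparison of two types of exceptional sets: from hypersurfaces with a small singular locus to all
closed sets.
-/

set_option autoImplicit false

namespace Pool.Agent.H911.KD

open MvPolynomial
open Pool.Agent.N254.SQ (Eqs IsForm Gen NotIn powerForm OnSab OnSpecial OnCurves qf_eqs)
open Pool.Agent.W602.GT (SubVar GeneralType coords)
open Pool.Agent.H911.GD (Typ typ_comp typ_con typ_deg Moves Compat Pair typ_special typ_curves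
  typ_sab SabQ sab_fun special_fun curves_fun moves_special moves_curves transfer_iff sab_iff
  one_form)

/-- the transfer of a type of exceptional sets to models -/
def Transfer (T : ∀ n : ℕ, Set (MvPolynomial (Fin (n + 1)) ℂ)) (N : ℕ)
    (P : ∀ n : ℕ, Set (MvPolynomial (Fin (n + 1)) ℂ) →
      Set (MvPolynomial (Fin (n + 1)) ℂ) → MvPolynomial (Fin (n + 1)) ℂ → Prop) : Prop :=
  ∀ {n : ℕ} {L : Type} [Field L] [Algebra ℂ L] {y : Fin (n + 1) → L}
    {z : Fin (N + 1) → L} {A : Fin (N + 1) → MvPolynomial (Fin (n + 1)) ℂ}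
    {R : Fin (n + 1) → MvPolynomial (Fin (N + 1)) ℂ} {H : MvPolynomial (Fin (N + 1)) ℂ},
    Pair y z A R H → Compat y A (T n) (T N) →
    ((∃ G, IsForm G ∧ aeval z G ≠ 0 ∧ P N (Eqs z) (T N) G) ↔
      ∃ G, IsForm G ∧ aeval y G ≠ 0 ∧ P n (Eqs y) (T n) G)

/-- the closed set is of dimension at most `m` -/
def DimLe {n : ℕ} (S : Set (MvPolynomial (Fin (n + 1)) ℂ)) (m : ℕ) : Prop :=
  ∀ (L : Type) [Field L] [Algebra ℂ L] (w : ℕ) (y : Fin (n + 1) → L),
    SubVar (fun p : S => (p : MvPolynomial (Fin (n + 1)) ℂ)) L w y → w ≤ m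

theorem compare {I J : ∀ n : ℕ, Set (MvPolynomial (Fin (n + 1)) ℂ) →
      Set (MvPolynomial (Fin (n + 1)) ℂ) → MvPolynomial (Fin (n + 1)) ℂ → Prop} (hI : Typ I)
    (hJ : Typ J) {T : ∀ n : ℕ, Set (MvPolynomial (Fin (n + 1)) ℂ)}
    (hT : ∀ n, ∀ F ∈ T n, IsForm F) {N m k : ℕ} (hmod : HasModels T N m k) {D₁ : ℕ → ℕ}
    (H : Bounds N k D₁) {E : ℕ → Set ℕ} (hE : ∀ e, ∃ D ∈ E e, D₁ e ≤ D) (htI : Transfer T N I)
    (htJ : Transfer T N J)
    (h : ∀ (e D : ℕ) (Q : Fin (N * (2 * N + 1)) → MvPolynomial (Fin (N + 1)) ℂ), D ∈ E e →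
      D₁ e ≤ D → (∀ t, (Q t).IsHomogeneous e) → SmallSing k (powerForm D Q) →
      (∀ G, IsForm G → I N {powerForm D Q} (T N) G → J N {powerForm D Q} (T N) G) ∧
      ∀ (L : Type) [Field L] [Algebra ℂ L] (z : Fin (N + 1) → L), PropK k z (powerForm D Q) →
        ∀ F ∈ Eqs z, I N {powerForm D Q} (T N) F)
    {n : ℕ} {S : Set (MvPolynomial (Fin (n + 1)) ℂ)} (hS : ∀ p ∈ S, IsForm p)
    (hdim : DimLe S m) (G : MvPolynomial (Fin (n + 1)) ℂ) (hG : IsForm G)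
    (hIG : I n S (T n) G) : J n S (T n) G := by
  refine typ_deg hI hJ ?_ G hG hIG
  intro e G hG he hIG
  by_contra hn
  obtain ⟨L, iF, iA, w, y, hw, hgen, hGy, hnot, hSy, hc⟩ := typ_comp hJ hS (hT n) hG he hn
  have hwm := hdim L w y ⟨hgen.ne, fun p => hSy p p.2, hgen.gen, hgen.dim⟩
  have h1 : I n (Eqs y) (T n) G := hI.mono n S (Eqs y) (T n)
    (fun L' _ _ x hx => qf_eqs hS hSy L' x hx) G hIG
  obtain ⟨M, A, hwM, hMN', hMN, hA, hC⟩ := hmod n L w y hwm hgen hnot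
  obtain ⟨e', D, Q, z, R, K, hDE, hD, hQ, hsm, hz, hp, hPr⟩ :=
    exists_model H hgen hwM hMN' hMN hA hE
  obtain ⟨h2, h3⟩ := h e' D Q hDE hD hQ hsm
  obtain ⟨G1, hG1, hG1z, hI1⟩ := (htI hPr hC).2 ⟨G, ⟨e, hG⟩, hGy, h1⟩
  have h4 : I N {powerForm D Q} (T N) (G1 * 1) := by
    refine hI.restr N _ (T N) L z G1 1 hG1 ⟨0, isHomogeneous_one _ _⟩ (fun F hF hFz => ?_) hI1
    rw [mul_one]
    exact h3 L z hp F ⟨hF, hFz⟩
  rw [mul_one] at h4
  have h5 : J N (Eqs z) (T N) G1 := by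
    refine hJ.mono N {powerForm D Q} (Eqs z) (T N) (fun L' _ _ x hx p hp' => ?_) G1 (h2 G1 hG1 h4)
    rw [Set.mem_singleton_iff] at hp'
    rw [hp']
    exact hp.van L' x hx
  obtain ⟨G2, hG2, hG2y, hJ2⟩ := (htJ hPr hC).1 ⟨G1, hG1, hG1z, h5⟩
  exact typ_con hJ hc hG2 hG2y hJ2

/-- both directions -/
theorem compare_iff {I J : ∀ n : ℕ, Set (MvPolynomial (Fin (n + 1)) ℂ) →
      Set (MvPolynomial (Fin (n + 1)) ℂ) → MvPolynomial (Fin (n + 1)) ℂ → Prop} (hI : Typ I)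
    (hJ : Typ J) {T : ∀ n : ℕ, Set (MvPolynomial (Fin (n + 1)) ℂ)}
    (hT : ∀ n, ∀ F ∈ T n, IsForm F) {N m k : ℕ} (hmod : HasModels T N m k) {D₁ : ℕ → ℕ}
    (H : Bounds N k D₁) {E : ℕ → Set ℕ} (hE : ∀ e, ∃ D ∈ E e, D₁ e ≤ D) (htI : Transfer T N I)
    (htJ : Transfer T N J)
    (hb : ∀ (A : MvPolynomial (Fin (N + 1)) ℂ) (L : Type) [Field L] [Algebra ℂ L]
      (z : Fin (N + 1) → L), PropK k z A → ∀ F ∈ Eqs z, J N {A} (T N) F)
    (h : ∀ (e D : ℕ) (Q : Fin (N * (2 * N + 1)) → MvPolynomial (Fin (N + 1)) ℂ), D ∈ E e →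
      D₁ e ≤ D → (∀ t, (Q t).IsHomogeneous e) → SmallSing k (powerForm D Q) →
      ∀ G, IsForm G → (I N {powerForm D Q} (T N) G ↔ J N {powerForm D Q} (T N) G))
    {n : ℕ} {S : Set (MvPolynomial (Fin (n + 1)) ℂ)} (hS : ∀ p ∈ S, IsForm p)
    (hdim : DimLe S m) (G : MvPolynomial (Fin (n + 1)) ℂ) (hG : IsForm G) :
    I n S (T n) G ↔ J n S (T n) G := by
  constructor
  · exact compare hI hJ hT hmod H hE htI htJ (fun e D Q h1 h2 h3 h4 =>
      ⟨fun G hG => (h e D Q h1 h2 h3 h4 G hG).1, fun L _ _ z hz F hF =>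
        (h e D Q h1 h2 h3 h4 F hF.1).2 (hb _ L z hz F hF)⟩) hS hdim G hG
  · exact compare hJ hI hT hmod H hE htJ htI (fun e D Q h1 h2 h3 h4 =>
      ⟨fun G hG => (h e D Q h1 h2 h3 h4 G hG).2, fun L _ _ z hz F hF =>
        hb _ L z hz F hF⟩) hS hdim G hG

theorem transfer_sab (N : ℕ) : Transfer (fun _ => {1}) N (fun _ S T G => SabQ S T G) := by
  intro n L _ _ y z A R H hP _
  exact sab_iff hP

theorem transfer_special (N : ℕ) :
    Transfer (fun _ => {1}) N (fun _ S T G => Pool.Agent.N254.SQ.OnSpecialQ S T G) := by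
  intro n L _ _ y z A R H hP hC
  exact transfer_iff moves_special hP one_form one_form hC

theorem transfer_curves (N : ℕ) :
    Transfer (fun _ => {1}) N (fun _ S T G => Pool.Agent.N254.SQ.OnCurvesQ S T G) := by
  intro n L _ _ y z A R H hP hC
  exact transfer_iff moves_curves hP one_form one_form hC

/-- hypersurfaces of dimension `N - 1` -/
theorem dim_hyp {N r : ℕ} (hN : N ≤ r + 1) {A : MvPolynomial (Fin (N + 1)) ℂ} (hA : IsForm A)
    (hA0 : A ≠ 0) : DimLe {A} r := by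
  intro L _ _ w y hy
  have := Pool.Agent.H911.GD.dim_lt hA hA0 ⟨hy.ne, hy.gen, hy.dim⟩ (hy.mem ⟨A, rfl⟩)
  omega

/-- semi-abelian special sets and the special sets -/
theorem sab_special {N m k : ℕ} (h1 : m + 1 ≤ N) (h2 : 2 * m + 1 ≤ N + k) {D₁ : ℕ → ℕ}
    (H : Bounds N k D₁) {E : ℕ → Set ℕ} (hE : ∀ e, ∃ D ∈ E e, D₁ e ≤ D)
    (h : ∀ (e D : ℕ) (Q : Fin (N * (2 * N + 1)) → MvPolynomial (Fin (N + 1)) ℂ), D ∈ E e →
      D₁ e ≤ D → (∀ t, (Q t).IsHomogeneous e) → SmallSing k (powerForm D Q) →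
      ∀ G, IsForm G → (OnSab {powerForm D Q} G ↔ OnSpecial {powerForm D Q} G))
    {n : ℕ} {S : Set (MvPolynomial (Fin (n + 1)) ℂ)} (hS : ∀ p ∈ S, IsForm p)
    (hdim : DimLe S m) (G : MvPolynomial (Fin (n + 1)) ℂ) (hG : IsForm G) :
    OnSab S G ↔ OnSpecial S G := by
  have h3 := compare_iff typ_sab typ_special (T := fun _ => {1}) (fun _ => one_form)
    (models_one h1 h2) H hE (transfer_sab N) (transfer_special N)
    (fun A L _ _ z hz F hF => base_special hz hF) (fun e D Q a b c d G hG => by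
      simp only [sab_fun, special_fun]
      exact h e D Q a b c d G hG) hS hdim G hG
  simp only [sab_fun, special_fun] at h3
  exact h3

/-- semi-abelian special sets and entire curves -/
theorem sab_curves {N m k : ℕ} (h1 : m + 1 ≤ N) (h2 : 2 * m + 1 ≤ N + k) {D₁ : ℕ → ℕ}
    (H : Bounds N k D₁) {E : ℕ → Set ℕ} (hE : ∀ e, ∃ D ∈ E e, D₁ e ≤ D)
    (h : ∀ (e D : ℕ) (Q : Fin (N * (2 * N + 1)) → MvPolynomial (Fin (N + 1)) ℂ), D ∈ E e →
      D₁ e ≤ D → (∀ t, (Q t).IsHomogeneous e) → SmallSing k (powerForm D Q) →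
      ∀ G, IsForm G → (OnSab {powerForm D Q} G ↔ OnCurves {powerForm D Q} G))
    {n : ℕ} {S : Set (MvPolynomial (Fin (n + 1)) ℂ)} (hS : ∀ p ∈ S, IsForm p)
    (hdim : DimLe S m) (G : MvPolynomial (Fin (n + 1)) ℂ) (hG : IsForm G) :
    OnSab S G ↔ OnCurves S G := by
  have h3 := compare_iff typ_sab typ_curves (T := fun _ => {1}) (fun _ => one_form)
    (models_one h1 h2) H hE (transfer_sab N) (transfer_curves N)
    (fun A L _ _ z hz F hF => base_curves hz hF) (fun e D Q a b c d G hG => by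
      simp only [sab_fun, curves_fun]
      exact h e D Q a b c d G hG) hS hdim G hG
  simp only [sab_fun, curves_fun] at h3
  exact h3

end Pool.Agent.H911.KD
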