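import Pool.Agent.H911.KD.Cmp

/-!
From irreducible varieties to all closed sets.
-/

set_option autoImplicit false

namespace Pool.Agent.H911.KD

open MvPolynomial
open Pool.Agent.N254.SQ (Eqs IsForm Gen NotIn LogGeneral OnSpecialQ qf_eqs qf_eqsForm Component)
open Pool.Agent.W602.GT (SubVar GeneralType coords)
open Pool.Agent.H911.GD (Typ typ_comp typ_con typ_deg typ_special)

variable {P : ∀ n : ℕ, Set (MvPolynomial (Fin (n + 1)) ℂ) →
    Set (MvPolynomial (Fin (n + 1)) ℂ) → MvPolynomial (Fin (n + 1)) ℂ → Prop} (hP : Typ P)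
  {r n : ℕ} {S T : Set (MvPolynomial (Fin (n + 1)) ℂ)} (hS : ∀ p ∈ S, IsForm p)
  (hdim : DimLe S r) (hT : ∀ F ∈ T, IsForm F)
  (h : ∀ (L : Type) [Field L] [Algebra ℂ L] (w : ℕ) (y : Fin (n + 1) → L), 1 ≤ w → w ≤ r →
    Gen L w y → NotIn T y → (LogGeneral T L w y ↔ ∃ G, IsForm G ∧ aeval y G ≠ 0 ∧
      P n (Eqs y) T G))
include hP hS hdim hT h

omit hT in
/-- the special set of a subvariety -/
theorem forwardS_special {L : Type} [Field L] [Algebra ℂ L] {y : Fin (n + 1) → L}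
    (hyS : ∀ p ∈ S, aeval y p = 0) {G : MvPolynomial (Fin (n + 1)) ℂ} (hG : IsForm G)
    (hPG : P n (Eqs y) T G) : OnSpecialQ (Eqs y) T G := by
  intro L' _ _ w' y' hw' hsub hnot'
  by_cases h0 : aeval y' G = 0
  · exact Or.inr h0
  left
  have hgen' : Gen L' w' y' := ⟨hsub.ne, hsub.gen, hsub.dim⟩
  have hle := hdim L' w' y' ⟨hsub.ne, fun p => hsub.mem ⟨p, hS p p.2, hyS p p.2⟩, hsub.gen,
    hsub.dim⟩
  refine (h L' w' y' hw' hle hgen' hnot').2 ⟨G, hG, h0, ?_⟩
  exact hP.mono n (Eqs y) (Eqs y') T (fun L'' _ _ x hx => qf_eqs (qf_eqsForm y)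
    (fun p hp => hsub.mem ⟨p, hp⟩) L'' x hx) G hPG

theorem forwardS_eq (G : MvPolynomial (Fin (n + 1)) ℂ) (hG : IsForm G) :
    P n S T G ↔ OnSpecialQ S T G := by
  constructor
  · refine typ_deg (I := P) (J := fun _ S T G => OnSpecialQ S T G) hP typ_special ?_ G hG
    intro e G hG he hPG
    by_contra hn
    obtain ⟨L, iF, iA, w, y, hw, hgen, hGy, hnot, hSy, hc⟩ :=
      typ_comp (J := fun _ S T G => OnSpecialQ S T G) typ_special hS hT hG he hn
    have h1 : P n (Eqs y) T G := hP.mono n S (Eqs y) T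
      (fun L' _ _ x hx => qf_eqs hS hSy L' x hx) G hPG
    exact typ_con (J := fun _ S T G => OnSpecialQ S T G) typ_special hc ⟨e, hG⟩ hGy
      (forwardS_special hP hS hdim h hSy ⟨e, hG⟩ h1)
  · refine typ_deg (I := fun _ S T G => OnSpecialQ S T G) (J := P) typ_special hP ?_ G hG
    intro e G hG he hSG
    by_contra hn
    obtain ⟨L, iF, iA, w, y, hw, hgen, hGy, hnot, hSy, hc⟩ := typ_comp hP hS hT hG he hn
    have hle := hdim L w y ⟨hgen.ne, fun p => hSy p p.2, hgen.gen, hgen.dim⟩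
    have h1 : LogGeneral T L w y := by
      rcases hSG L w y hw ⟨hgen.ne, fun p => hSy p.1 p.2, hgen.gen, hgen.dim⟩ hnot with h2 | h2
      · exact h2
      · exact absurd h2 hGy
    obtain ⟨G', hG', hG'y, hPG'⟩ := (h L w y hw hle hgen hnot).1 h1
    exact typ_con hP hc hG' hG'y hPG'

omit hT in
theorem forwardS_no (L : Type) [Field L] [Algebra ℂ L] (w : ℕ) (y : Fin (n + 1) → L) (hw : 1 ≤ w)
    (hy : SubVar (fun p : S => (p : MvPolynomial (Fin (n + 1)) ℂ)) L w y) (hyT : NotIn T y)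
    (hlog : LogGeneral T L w y) : ¬ Component (OnSpecialQ S T) y := by
  intro hc
  have hgen : Gen L w y := ⟨hy.ne, hy.gen, hy.dim⟩
  have hle := hdim L w y hy
  obtain ⟨G, hG, hGy, hPG⟩ := (h L w y hw hle hgen hyT).1 hlog
  exact typ_con (J := fun _ S T G => OnSpecialQ S T G) typ_special hc hG hGy
    (forwardS_special hP hS hdim h (fun p hp => hy.mem ⟨p, hp⟩) hG hPG)

end Pool.Agent.H911.KD
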