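import Pool.Agent.H911.KD.Main
import Pool.Agent.H911.QD.KeyI

/-!
Hypersurfaces over `ℚ` with a small singular locus through an irreducible hypersurface in a linear
subspace.
-/

set_option autoImplicit false

namespace Pool.Agent.H911.KD

open MvPolynomial
open Pool.Agent.N254.SQ (IsForm SmoothOver powerFormOver hyp leaves4)
open Pool.Agent.W602.GT (SubVar GeneralType)
open Pool.Agent.H911.QD (emb emb_surj bq bq_hom bq_zero bq_of jac jac_rank jac_rank2 hyp_trdeg
  hyp_trdeg2 exists_deriv Prop1)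
open Pool.Agent.H911.QR (map_val)

/-- The singular locus of the hypersurface `A = 0` over `ℚ` is of dimension less than `k`: some `k`
linear forms with rational coefficients have no common zero on it (over any field). For `k = 0` the
hypersurface is smooth. -/
def SmallSingOver {N : ℕ} (k : ℕ) (A : MvPolynomial (Fin (N + 1)) ℚ) : Prop :=
  ∃ l : Fin k → Fin (N + 1) → ℚ, ∀ (Ω : Type) [Field Ω] (τ : ℚ →+* Ω) (x : Fin (N + 1) → Ω),
    x ≠ 0 → (∀ i, ∑ j, τ (l i j) * x j = 0) → ∃ j, eval₂ τ x (pderiv j A) ≠ 0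

/-- the hypersurface is not the whole space -/
theorem over_ne {N k : ℕ} (hk : k ≤ N) {A : MvPolynomial (Fin (N + 1)) ℚ}
    (hA : SmallSingOver k A) : A ≠ 0 := by
  obtain ⟨l, hl⟩ := hA
  rintro rfl
  let φ : (Fin (N + 1) → ℚ) →ₗ[ℚ] (Fin k → ℚ) := (Matrix.of l).mulVecLin
  have h1 : 0 < Module.finrank ℚ (LinearMap.ker φ) := by
    have h2 := LinearMap.finrank_range_add_finrank_ker φ
    have h3 := Submodule.finrank_le (LinearMap.range φ)
    rw [Module.finrank_fin_fun] at h2 h3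
    omega
  have h4 := Module.nontrivial_of_finrank_pos h1
  obtain ⟨⟨x, hx⟩, hx0⟩ := exists_ne (0 : LinearMap.ker φ)
  obtain ⟨j, hj⟩ := hl ℚ (RingHom.id ℚ) x (fun h => hx0 (Subtype.ext h)) (fun i => by
    have h2 := congrFun (LinearMap.mem_ker.1 hx) i
    exact h2)
  rw [map_zero, eval₂_zero] at hj
  exact hj rfl

/-- smooth hypersurfaces -/
theorem over_zero {N : ℕ} {A : MvPolynomial (Fin (N + 1)) ℚ} :
    SmallSingOver 0 A ↔ SmoothOver A := by
  constructor
  · rintro ⟨l, hl⟩ Ω _ τ x hx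
    exact hl Ω τ x hx fun i => i.elim0
  · intro h
    exact ⟨fun i => i.elim0, fun Ω _ τ x hx _ => h Ω τ x hx⟩

/-- the pointwise condition -/
theorem base_ptk {K : Type} [Field K] [CharZero K] {n N e k : ℕ} (h : n ≤ N)
    (hN : 2 * n ≤ N + 1 + k) (he : 1 ≤ e) {F : MvPolynomial (Fin (n + 1)) K}
    (hF : F.IsHomogeneous e) (hp : Prime F) (Ω : Type) [Field Ω] [Algebra K Ω]
    (x : Fin (N + 1) → Ω) (a : Fin (N + 1)) (ha : x a = 1)
    (hq : ∀ i, aeval x (bq h e F i) = 0) :
    Algebra.trdeg K (Algebra.adjoin K (Set.range x)) <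
      (((Matrix.of fun i j => (aeval x (pderiv j (bq h e F i)) : Ω)).rank + k : ℕ) :
        Cardinal) := by
  have hx0 : x ≠ 0 := by
    intro h1
    rw [h1] at ha
    exact zero_ne_one ha
  obtain ⟨h1, h2⟩ := bq_zero h x hx0 hq
  rw [QD.range_eq h x h1]
  obtain ⟨b, hb⟩ := emb_surj h a (by
    by_contra hcon
    push Not at hcon
    rw [h1 a hcon] at ha
    exact zero_ne_one ha)
  have hb1 : x (emb h b) = 1 := by rw [hb, ha]
  change _ < (((jac h e F x).rank + k : ℕ) : Cardinal)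
  by_cases hd : ∃ j, aeval (fun j => x (emb h j)) (pderiv j F) ≠ 0
  · obtain ⟨j, hj⟩ := hd
    obtain ⟨w, hw, hwn⟩ := hyp_trdeg hF hp (fun j => x (emb h j)) b hb1 h2
    have h3 := jac_rank2 (e := e) h x a ha h1 j hj
    rw [hw]
    have h4 : w < (jac h e F x).rank + k := by omega
    exact_mod_cast h4
  · push Not at hd
    obtain ⟨j, hj⟩ := exists_deriv he hF hp.ne_zero
    obtain ⟨w, hw, hwn⟩ := hyp_trdeg2 hF hp (fun j => x (emb h j)) b hb1 h2 (pderiv j F)
      hF.pderiv (by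
        rintro ⟨H, hH⟩
        have h3 := hF.pderiv (i := j)
        have h4 : (pderiv j F).totalDegree = e - 1 := h3.totalDegree hj
        have hH0 : H ≠ 0 := by
          intro h5
          rw [h5, mul_zero] at hH
          exact hj hH
        have h5 : (pderiv j F).totalDegree = F.totalDegree + H.totalDegree := by
          rw [hH, totalDegree_mul_of_isDomain hp.ne_zero hH0]
        rw [h4, hF.totalDegree hp.ne_zero] at h5
        omega) (hd j)
    have h3 := jac_rank (e := e) (F := F) h x a ha h1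
    rw [hw]
    have h4 : w < (jac h e F x).rank + k := by omega
    exact_mod_cast h4

theorem exists_hypq (N e k : ℕ) (hN1 : 1 ≤ N) : ∃ D₁ : ℕ, ∀ D, D₁ ≤ D → ∀ (n : ℕ) (h : n ≤ N),
    2 * n ≤ N + 1 + k → 1 ≤ e → ∀ F : MvPolynomial (Fin (n + 1)) ℚ, F.IsHomogeneous e → Prime F →
    ∃ Q : Fin (N * (2 * N + 1)) → MvPolynomial (Fin (N + 1)) ℚ,
      (∀ t, (Q t).IsHomogeneous e) ∧ SmallSingOver k (powerFormOver D Q) ∧
      Prop1 h F (map (algebraMap ℚ ℂ) (powerFormOver D Q)) := by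
  rcases Nat.eq_zero_or_pos e with he0 | he
  · exact ⟨0, fun D _ n h _ he => by omega⟩
  obtain ⟨D₁, H⟩ := main_fourk leaves4 N e k hN1 he
  refine ⟨D₁, fun D hD n h hn _ F hF hp => ?_⟩
  obtain ⟨c, l, hc1, -, hc2⟩ := H D hD ℚ _ (bq h e F) (bq_hom h he hF)
    (fun Ω _ _ x a ha hq => base_ptk h hn he hF hp Ω x a ha hq)
  have hhom : ∀ t, (∑ i, C (c (t, i)) * bq h e F i).IsHomogeneous e := by
    intro t
    refine IsHomogeneous.sum _ _ _ fun i _ => ?_
    have h2 := (isHomogeneous_C (Fin (N + 1)) (c (t, i))).mul (bq_hom h he hF i)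
    rwa [zero_add] at h2
  have hA : powerFormOver D (fun t => ∑ i, C (c (t, i)) * bq h e F i) = hyp (bq h e F) D c := rfl
  refine ⟨fun t => ∑ i, C (c (t, i)) * bq h e F i, hhom, ?_, ?_, ?_, ?_⟩
  · refine ⟨l, fun Ω _ τ y hy hly => ?_⟩
    obtain ⟨j, hj⟩ := hc1 Ω τ y hy hly
    refine ⟨j, ?_⟩
    rw [pderiv_map, eval_map] at hj
    exact hj
  · refine ⟨e + D, IsHomogeneous.map ?_ _⟩
    refine IsHomogeneous.sum _ _ _ fun t _ => ?_
    refine (hhom t).mul ?_
    have h1 : (∑ j : Fin (N + 1), C (((t : ℕ) : ℚ) ^ (j : ℕ)) * X j :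
        MvPolynomial (Fin (N + 1)) ℚ).IsHomogeneous 1 := by
      refine IsHomogeneous.sum _ _ _ fun j _ => ?_
      have h2 := (isHomogeneous_C (Fin (N + 1)) (((t : ℕ) : ℚ) ^ (j : ℕ))).mul
        (isHomogeneous_X ℚ j)
      rwa [zero_add] at h2
    have h2 := h1.pow D
    rwa [one_mul] at h2
  · intro Ω _ _ x hx hxF
    let _ : Algebra ℚ Ω := ((algebraMap ℂ Ω).comp (algebraMap ℚ ℂ)).toAlgebra
    have _i : IsScalarTower ℚ ℂ Ω := IsScalarTower.of_algebraMap_eq' rfl
    rw [map_val] at hxF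
    have h1 := bq_of h (e := e) x hx hxF
    rw [map_val, hA]
    unfold hyp
    rw [map_sum]
    refine Finset.sum_eq_zero fun t _ => ?_
    rw [map_mul, map_sum, Finset.sum_eq_zero, zero_mul]
    intro i _
    rw [map_mul, h1 i, mul_zero]
  · intro L _ _ w y hw hy
    rcases (hc2 (algebraMap ℚ ℂ)).2.1 L w y hw hy with h1 | h1
    · right
      let _ : Algebra ℚ L := ((algebraMap ℂ L).comp (algebraMap ℚ ℂ)).toAlgebra
      have _i : IsScalarTower ℚ ℂ L := IsScalarTower.of_algebraMap_eq' rfl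
      rw [map_val]
      refine bq_zero h (e := e) y hy.ne fun i => ?_
      rw [← map_val]
      exact h1 i
    · exact Or.inl h1

end Pool.Agent.H911.KD
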