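import Pool.Agent.H911.KD.Abs

/-!
The four and five conditions: assembly, for hypersurfaces with a small singular locus.
-/

set_option autoImplicit false

namespace Pool.Agent.H911.KD

open MvPolynomial
open Pool.Agent.N254.SQ (Eqs IsForm Gen NotIn LogGeneral OnSpecialQ OnCurvesQ OnDiscsQ OnSab
  OnSpecial OnCurves OnDiscs powerForm Component Exc t_qcurv t_qdisc t_qspec t_cent)
open Pool.Agent.W602.GT (SubVar GeneralType coords)
open Pool.Agent.H911.GD (Typ typ_special typ_curves typ_discs typ_of_exc Moves moves_curves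
  moves_discs moves_special Excep Four four_iff Cond4 final_forward Lin lin_form lin_eq
  exists_linear mdl_lin compat_lin transfer_iff)

theorem four_forward {N k : ℕ} (hN : N ≤ k + 1) {A : MvPolynomial (Fin (N + 1)) ℂ}
    (hA : IsForm A) (hA0 : A ≠ 0) {T : Set (MvPolynomial (Fin (N + 1)) ℂ)}
    (hT : ∀ F ∈ T, IsForm F)
    (h : ∀ (L : Type) [Field L] [Algebra ℂ L] (w : ℕ) (y : Fin (N + 1) → L), 1 ≤ w → w ≤ k →
      Gen L w y → NotIn T y → Cond4 T L w y) : Four A T :=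
  (four_iff A T).2
    ⟨final_forward typ_curves hN hA hA0 hT fun L _ _ w y hw hwk hy hyT =>
        (h L w y hw hwk hy hyT).1,
      final_forward typ_discs hN hA hA0 hT fun L _ _ w y hw hwk hy hyT =>
        (h L w y hw hwk hy hyT).2.1,
      final_forward typ_special hN hA hA0 hT fun L _ _ w y hw hwk hy hyT =>
        (h L w y hw hwk hy hyT).2.2⟩

theorem four_backward {T : ∀ n : ℕ, Set (MvPolynomial (Fin (n + 1)) ℂ)}
    (hT : ∀ n, ∀ F ∈ T n, IsForm F) {N m k : ℕ} (hmod : HasModels T N m k) {D₁ : ℕ → ℕ}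
    (H : Bounds N k D₁) {E : ℕ → Set ℕ} (hE : ∀ e, ∃ D ∈ E e, D₁ e ≤ D)
    (h : ∀ (e D : ℕ) (Q : Fin (N * (2 * N + 1)) → MvPolynomial (Fin (N + 1)) ℂ), D ∈ E e →
      D₁ e ≤ D → (∀ t, (Q t).IsHomogeneous e) → SmallSing k (powerForm D Q) →
      Four (powerForm D Q) (T N)) {n : ℕ} {L : Type} [Field L] [Algebra ℂ L] {w : ℕ}
    {y : Fin (n + 1) → L} (hw : 1 ≤ w) (hwm : w ≤ m) (hy : Gen L w y) (hyT : NotIn (T n) y) :
    Cond4 (T n) L w y :=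
  ⟨final_backward typ_curves moves_curves hT hmod H hE (fun e D Q h1 h2 h3 h4 =>
      ((four_iff _ _).1 (h e D Q h1 h2 h3 h4)).1) hw hwm hy hyT,
    final_backward typ_discs moves_discs hT hmod H hE (fun e D Q h1 h2 h3 h4 =>
      ((four_iff _ _).1 (h e D Q h1 h2 h3 h4)).2.1) hw hwm hy hyT,
    final_backward typ_special moves_special hT hmod H hE (fun e D Q h1 h2 h3 h4 =>
      ((four_iff _ _).1 (h e D Q h1 h2 h3 h4)).2.2) hw hwm hy hyT⟩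

/-- quasi-projective varieties -/
theorem quasi_backward {P : ∀ n : ℕ, Set (MvPolynomial (Fin (n + 1)) ℂ) →
    Set (MvPolynomial (Fin (n + 1)) ℂ) → MvPolynomial (Fin (n + 1)) ℂ → Prop} (hP : Exc P)
    (hM : Moves P) {m N k : ℕ} (hmN : 2 * m + 1 ≤ N) (hmk : 3 * m + 1 ≤ N + k) {D₁ : ℕ → ℕ}
    (H : Bounds N k D₁) {E : ℕ → Set ℕ} (hE : ∀ e, ∃ D ∈ E e, D₁ e ≤ D)
    (h : ∀ (e D : ℕ) (Q : Fin (N * (2 * N + 1)) → MvPolynomial (Fin (N + 1)) ℂ), D ∈ E e →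
      D₁ e ≤ D → (∀ t, (Q t).IsHomogeneous e) → SmallSing k (powerForm D Q) →
      Excep P (powerForm D Q) (Lin m N (by omega))) {n : ℕ} {L : Type} [Field L]
    [Algebra ℂ L] {w : ℕ} {y : Fin (n + 1) → L} (hw : 1 ≤ w) (hwm : w ≤ m) (hy : Gen L w y)
    {T : Set (MvPolynomial (Fin (n + 1)) ℂ)} (hT : ∀ F ∈ T, IsForm F) (hyT : NotIn T y) :
    LogGeneral T L w y ↔ ∃ G, IsForm G ∧ aeval y G ≠ 0 ∧ P n (Eqs y) T G := by
  obtain ⟨N', d, μ, y', κ, _, l, hd, hμ, hy', hl, hgen, hly, -, hlog, hiff⟩ :=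
    exists_linear hw hy hT hyT
  rw [← hlog, ← hiff P hP hM]
  obtain ⟨A, hA, hAl⟩ := mdl_lin hgen hl hly hwm
  have hlf : ∀ F ∈ Set.range l, IsForm F := by
    rintro _ ⟨k, rfl⟩
    exact ⟨1, hl k⟩
  have hC := compat_lin (show m ≤ m + w + 1 by omega) (show m + w + 1 ≤ N by omega) hAl
  refine final_one (typ_of_exc hP) H hE (lin_form (by omega)) h hw hgen hlf ?_ (by omega) (by omega)
    (by omega) hA hC fun z R K hPr => transfer_iff hM hPr hlf (lin_form (by omega)) hC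
  obtain ⟨k, hk⟩ := hly
  exact ⟨l k, ⟨k, rfl⟩, hk⟩

theorem four_quasi {m N k : ℕ} (hmN : 2 * m + 1 ≤ N) (hmk : 3 * m + 1 ≤ N + k) {D₁ : ℕ → ℕ}
    (H : Bounds N k D₁) {E : ℕ → Set ℕ} (hE : ∀ e, ∃ D ∈ E e, D₁ e ≤ D)
    (h : ∀ (e D : ℕ) (Q : Fin (N * (2 * N + 1)) → MvPolynomial (Fin (N + 1)) ℂ), D ∈ E e →
      D₁ e ≤ D → (∀ t, (Q t).IsHomogeneous e) → SmallSing k (powerForm D Q) →
      Four (powerForm D Q) (Lin m N (by omega))) {n : ℕ} {L : Type} [Field L]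
    [Algebra ℂ L] {w : ℕ} {y : Fin (n + 1) → L} (hw : 1 ≤ w) (hwm : w ≤ m) (hy : Gen L w y)
    {T : Set (MvPolynomial (Fin (n + 1)) ℂ)} (hT : ∀ F ∈ T, IsForm F) (hyT : NotIn T y) :
    Cond4 T L w y :=
  ⟨quasi_backward t_qcurv moves_curves hmN hmk H hE (fun e D Q h1 h2 h3 h4 =>
      ((four_iff _ _).1 (h e D Q h1 h2 h3 h4)).1) hw hwm hy hT hyT,
    quasi_backward t_qdisc moves_discs hmN hmk H hE (fun e D Q h1 h2 h3 h4 =>
      ((four_iff _ _).1 (h e D Q h1 h2 h3 h4)).2.1) hw hwm hy hT hyT,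
    quasi_backward (t_qspec t_cent) moves_special hmN hmk H hE (fun e D Q h1 h2 h3 h4 =>
      ((four_iff _ _).1 (h e D Q h1 h2 h3 h4)).2.2) hw hwm hy hT hyT⟩

/-- models of quasi-projective varieties -/
theorem quasi_models {m N k : ℕ} (hmN : 2 * m + 1 ≤ N) (hmk : 3 * m + 1 ≤ N + k) {D₁ : ℕ → ℕ}
    (H : Bounds N k D₁)
    {n : ℕ} {L : Type} [Field L] [Algebra ℂ L] {w : ℕ} {y : Fin (n + 1) → L} (hw : 1 ≤ w)
    (hwm : w ≤ m) (hy : Gen L w y) {T : Set (MvPolynomial (Fin (n + 1)) ℂ)}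
    (hT : ∀ F ∈ T, IsForm F) (hyT : NotIn T y) :
    ∃ (e d : ℕ) (B : Fin (N + 1) → MvPolynomial (Fin (n + 1)) ℂ), 1 ≤ e ∧ 1 ≤ d ∧
      (∀ i, (B i).IsHomogeneous d) ∧
      (∀ x : Fin (n + 1) → ℂ, x ≠ 0 → (∀ p ∈ Eqs y, eval x p = 0) → ∃ i, eval x (B i) ≠ 0) ∧
      (∀ x : Fin (n + 1) → ℂ, x ≠ 0 → (∀ p ∈ Eqs y, eval x p = 0) →
        ((∀ F ∈ T, eval x F = 0) ↔
          ∀ i : Fin (N + 1), (i : ℕ) ≤ m → eval x (B i) = 0)) ∧
      coords ℂ (fun i => aeval y (B i)) = ⊤ ∧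
      ∀ D, D₁ e ≤ D → ∃ Q : Fin (N * (2 * N + 1)) →
        MvPolynomial (Fin (N + 1)) ℂ, (∀ t, (Q t).IsHomogeneous e) ∧
        PropK k (fun i => aeval y (B i)) (powerForm D Q) := by
  obtain ⟨N', d, μ, y', κ, _, l, hd, hμ, hy', hl, hgen, hly, hlx, -, -⟩ :=
    exists_linear hw hy hT hyT
  obtain ⟨A, hA, hAl⟩ := mdl_lin hgen hl hly hwm
  obtain ⟨e, z, R, K, he, hz, hP, hQ⟩ := exists_models H hgen
    (show w < m + w + 1 by omega) (by omega) (by omega) hA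
  have hC := compat_lin (show m ≤ m + w + 1 by omega) (show m + w + 1 ≤ N by omega) hAl
  have hev : ∀ (Ω : Type) [Field Ω] [Algebra ℂ Ω] (x : Fin (n + 1) → Ω) (i),
      aeval x (Pool.Agent.N254.SQ.pull μ (QD.ext N A i)) =
        aeval (Pool.Agent.N254.SQ.ver μ x) (QD.ext N A i) :=
    fun Ω _ _ x i => Pool.Agent.N254.SQ.aeval_pull x _
  have hE : ∀ x : Fin (n + 1) → ℂ, (∀ p ∈ Eqs y, eval x p = 0) →
      ∀ p ∈ Eqs y', aeval (Pool.Agent.N254.SQ.ver μ x) p = 0 := by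
    rintro x hx p ⟨⟨e, he⟩, hp⟩
    rw [← Pool.Agent.N254.SQ.aeval_pull]
    refine hx _ ⟨⟨_, Pool.Agent.N254.SQ.pull_hom hμ he⟩, ?_⟩
    rw [Pool.Agent.N254.SQ.aeval_pull, ← hy']
    exact hp
  have hz' : (fun i => aeval y (Pool.Agent.N254.SQ.pull μ (QD.ext N A i))) = z := by
    funext i
    rw [hev, ← hy']
    exact hP.map i
  refine ⟨e, d, fun i => Pool.Agent.N254.SQ.pull μ (QD.ext N A i), he, hd, fun i => ?_,
    fun x hx hxE => ?_, fun x hx hxE => ?_, ?_, ?_⟩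
  · have := Pool.Agent.N254.SQ.pull_hom hμ (hP.homA i)
    rwa [mul_one] at this
  · obtain ⟨i, hi⟩ := hP.reg ℂ (Pool.Agent.N254.SQ.ver μ x)
      (Pool.Agent.N254.SQ.ver_ne_zero hμ hd hx) (hE x hxE)
    exact ⟨i, by
      have := hev ℂ x i
      rw [← this] at hi
      exact hi⟩
  · have h1 := hlx ℂ x hx
    have h2 := hC ℂ (Pool.Agent.N254.SQ.ver μ x) (Pool.Agent.N254.SQ.ver_ne_zero hμ hd hx)
      (hE x hxE)
    rw [lin_eq] at h2
    constructor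
    · intro h i him
      by_contra hcon
      obtain ⟨_, ⟨k, rfl⟩, hk⟩ := h2.2 ⟨X i, ⟨i, him, rfl⟩, by
        rw [aeval_X, ← hev ℂ x i]
        exact hcon⟩
      obtain ⟨F, hF, h0⟩ := h1.2 ⟨k, hk⟩
      exact h0 (h F hF)
    · intro h F hF
      by_contra hcon
      obtain ⟨k, hk⟩ := h1.1 ⟨F, hF, hcon⟩
      obtain ⟨_, ⟨i, him, rfl⟩, hi⟩ := h2.1 ⟨l k, ⟨k, rfl⟩, hk⟩
      rw [aeval_X, ← hev ℂ x i] at hi
      exact hi (h i him)
  · rw [hz']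
    exact hz.gen
  · rw [hz']
    exact hQ

end Pool.Agent.H911.KD
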